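import Mathlib

/-! A strong law of large numbers for counts of weakly dependent events. -/

set_option autoImplicit false

open Finset Filter Topology MeasureTheory

namespace Q263.ND

/-- deterministic interpolation -/
lemma interp {S M : ℕ → ℝ} (hS : Monotone S) (hS0 : ∀ n, 0 ≤ S n) (hM : Monotone M)
    {N : ℕ → ℕ} (h1 : ∀ j : ℕ, ((j : ℝ) + 1) ^ 2 ≤ M (N j))
    (h2 : ∀ j : ℕ, M (N j) ≤ ((j : ℝ) + 1) ^ 2 + 1)
    (h3 : ∀ j n : ℕ, ((j : ℝ) + 1) ^ 2 ≤ M n → N j ≤ n)
    (hlim : Tendsto M atTop atTop)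
    (hr : Tendsto (fun j => S (N j) / M (N j)) atTop (𝓝 1)) :
    Tendsto (fun n => S n / M n) atTop (𝓝 1) := by
  set J : ℕ → ℕ := fun n => ⌊Real.sqrt (M n)⌋₊ - 1 with hJ
  have hJlim : Tendsto J atTop atTop := by
    have e1 : Tendsto (fun n => ⌊Real.sqrt (M n)⌋₊) atTop atTop :=
      tendsto_nat_floor_atTop.comp (Real.tendsto_sqrt_atTop.comp hlim)
    exact (tendsto_sub_atTop_nat 1).comp e1
  have hM1 : ∀ᶠ n in atTop, 1 ≤ M n := hlim.eventually_ge_atTop 1
  have hb : ∀ᶠ n in atTop, ((J n : ℝ) + 1) ^ 2 ≤ M n ∧ M n ≤ ((J n : ℝ) + 2) ^ 2 := by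
    filter_upwards [hM1] with n hn
    have hs : 1 ≤ Real.sqrt (M n) := by rw [Real.one_le_sqrt]; exact hn
    have hfl : 1 ≤ ⌊Real.sqrt (M n)⌋₊ := by rw [Nat.one_le_floor_iff]; exact hs
    have e1 : ((J n : ℕ) : ℝ) + 1 = (⌊Real.sqrt (M n)⌋₊ : ℝ) := by
      rw [hJ]
      simp only []
      rw [Nat.cast_sub hfl]
      push_cast
      ring
    have e2 := Nat.floor_le (Real.sqrt_nonneg (M n))
    have e3 := (Nat.lt_floor_add_one (Real.sqrt (M n))).le
    have e4 : Real.sqrt (M n) ^ 2 = M n := Real.sq_sqrt (by linarith)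
    constructor
    · rw [e1]
      exact (pow_le_pow_left₀ (Nat.cast_nonneg _) e2 2).trans e4.le
    · rw [← e4]
      refine pow_le_pow_left₀ (Real.sqrt_nonneg _) ?_ 2
      linarith
  have hlow : Tendsto (fun j : ℕ => S (N j) / M (N j) * (((j : ℝ) + 1) ^ 2 / ((j : ℝ) + 2) ^ 2))
      atTop (𝓝 1) := by
    have e1 : Tendsto (fun j : ℕ => ((j : ℝ) + 1) ^ 2 / ((j : ℝ) + 2) ^ 2) atTop (𝓝 1) := by
      have e2 : Tendsto (fun j : ℕ => 1 - 1 / ((j : ℝ) + 2)) atTop (𝓝 (1 - 0)) := by
        refine tendsto_const_nhds.sub ?_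
        have e3 : Tendsto (fun j : ℕ => (j : ℝ) + 2) atTop atTop :=
          tendsto_atTop_add_const_right _ _ tendsto_natCast_atTop_atTop
        have e5 := e3.inv_tendsto_atTop
        refine e5.congr fun j => ?_
        rw [Pi.inv_apply, one_div]
      have e4 := e2.pow 2
      rw [sub_zero, one_pow] at e4
      refine e4.congr fun j => ?_
      have : ((j : ℝ) + 2) ≠ 0 := by positivity
      field_simp
      ring
    simpa using hr.mul e1
  have hupp : Tendsto (fun j : ℕ => S (N (j + 1)) / M (N (j + 1)) *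
      ((((j : ℝ) + 2) ^ 2 + 1) / ((j : ℝ) + 1) ^ 2)) atTop (𝓝 1) := by
    have e1 : Tendsto (fun j : ℕ => (((j : ℝ) + 2) ^ 2 + 1) / ((j : ℝ) + 1) ^ 2) atTop (𝓝 1) := by
      have e3 : Tendsto (fun j : ℕ => 1 / ((j : ℝ) + 1)) atTop (𝓝 0) :=
        tendsto_one_div_add_atTop_nhds_zero_nat
      have e4 : Tendsto (fun j : ℕ => (1 + 1 / ((j : ℝ) + 1)) ^ 2 + (1 / ((j : ℝ) + 1)) ^ 2) atTop
          (𝓝 ((1 + 0) ^ 2 + 0 ^ 2)) := ((tendsto_const_nhds.add e3).pow 2).add (e3.pow 2)
      norm_num at e4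
      refine e4.congr fun j => ?_
      have : ((j : ℝ) + 1) ≠ 0 := by positivity
      field_simp
      ring
    simpa using (hr.comp (tendsto_add_atTop_nat 1)).mul e1
  refine tendsto_of_tendsto_of_tendsto_of_le_of_le' (hlow.comp hJlim) (hupp.comp hJlim) ?_ ?_
  · filter_upwards [hb, hM1] with n hn hn1
    obtain ⟨ha, hb'⟩ := hn
    simp only [Function.comp_apply]
    have e1 : S (N (J n)) ≤ S n := hS (h3 _ _ ha)
    have hMJ : 0 < M (N (J n)) := lt_of_lt_of_le (by positivity) (h1 (J n))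
    rw [le_div_iff₀ (by linarith)]
    calc S (N (J n)) / M (N (J n)) * (((J n : ℝ) + 1) ^ 2 / ((J n : ℝ) + 2) ^ 2) * M n
        ≤ S (N (J n)) / M (N (J n)) * (((J n : ℝ) + 1) ^ 2 / ((J n : ℝ) + 2) ^ 2) *
          ((J n : ℝ) + 2) ^ 2 := by
          refine mul_le_mul_of_nonneg_left hb' ?_
          have := hS0 (N (J n))
          positivity
      _ = S (N (J n)) * (((J n : ℝ) + 1) ^ 2 / M (N (J n))) := by
          field_simp
      _ ≤ S (N (J n)) * 1 := by
          refine mul_le_mul_of_nonneg_left ?_ (hS0 _)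
          rw [div_le_one hMJ]
          exact h1 _
      _ ≤ S n := by rw [mul_one]; exact e1
  · filter_upwards [hb, hM1] with n hn hn1
    obtain ⟨ha, hb'⟩ := hn
    simp only [Function.comp_apply]
    have hMJ : 0 < M (N (J n + 1)) := lt_of_lt_of_le (by positivity) (h1 (J n + 1))
    have e1 : S n ≤ S (N (J n + 1)) := by
      refine hS ?_
      by_contra hcon
      push Not at hcon
      have e2 : M (N (J n + 1)) ≤ M n := hM hcon.le
      have e3 := h1 (J n + 1)
      push_cast at e3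
      have e4 : ((J n : ℝ) + 1 + 1) ^ 2 = ((J n : ℝ) + 2) ^ 2 := by ring
      have e5 : M n = ((J n : ℝ) + 2) ^ 2 := le_antisymm hb' (by linarith)
      have e6 : N (J n + 1) ≤ n := hcon.le
      -- then `n = N`, contradiction with strictness
      exact absurd e5 (by
        intro h
        have hs : Real.sqrt (M n) = (J n : ℝ) + 2 := by
          rw [h]; exact Real.sqrt_sq (by positivity)
        have hfl : ⌊Real.sqrt (M n)⌋₊ = J n + 2 := by
          rw [hs]
          exact_mod_cast Nat.floor_natCast (J n + 2)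
        have : J n = ⌊Real.sqrt (M n)⌋₊ - 1 := rfl
        omega)
    rw [div_le_iff₀ (by linarith)]
    calc S n ≤ S (N (J n + 1)) * 1 := by rw [mul_one]; exact e1
      _ ≤ S (N (J n + 1)) * ((((J n : ℝ) + 2) ^ 2 + 1) / M (N (J n + 1))) := by
          refine mul_le_mul_of_nonneg_left ?_ (hS0 _)
          rw [one_le_div hMJ]
          have := h2 (J n + 1)
          push_cast at this
          have e4 : ((J n : ℝ) + 1 + 1) ^ 2 = ((J n : ℝ) + 2) ^ 2 := by ring
          linarith
      _ = S (N (J n + 1)) / M (N (J n + 1)) *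
          ((((J n : ℝ) + 2) ^ 2 + 1) / ((J n : ℝ) + 1) ^ 2) * ((J n : ℝ) + 1) ^ 2 := by
          field_simp
      _ ≤ _ := by
          refine mul_le_mul_of_nonneg_left ha ?_
          have := hS0 (N (J n + 1))
          positivity

/-- **Strong law** for counts with variance bounded by a multiple of the mean. -/
theorem slln {Ω : Type*} [MeasurableSpace Ω] (μ : Measure Ω) [IsProbabilityMeasure μ]
    (A : ℕ → Set Ω) (hA : ∀ i, MeasurableSet (A i)) (C : ℝ)
    (hvar : ∀ n, ∫ ω, ((∑ i ∈ range n, (A i).indicator (fun _ => (1 : ℝ)) ω) -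
      ∑ i ∈ range n, μ.real (A i)) ^ 2 ∂μ ≤ C * ∑ i ∈ range n, μ.real (A i))
    (hdiv : Tendsto (fun n => ∑ i ∈ range n, μ.real (A i)) atTop atTop) :
    ∀ᵐ ω ∂μ, Tendsto (fun n => (∑ i ∈ range n, (A i).indicator (fun _ => (1 : ℝ)) ω) /
      ∑ i ∈ range n, μ.real (A i)) atTop (𝓝 1) := by
  set M : ℕ → ℝ := fun n => ∑ i ∈ range n, μ.real (A i) with hMdef
  set S : ℕ → Ω → ℝ := fun n ω => ∑ i ∈ range n, (A i).indicator (fun _ => (1 : ℝ)) ω with hSdef
  have hM : Monotone M := by
    intro a b hab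
    exact Finset.sum_le_sum_of_subset_of_nonneg (Finset.range_mono hab)
      fun i _ _ => measureReal_nonneg
  have hMstep : ∀ n, M (n + 1) ≤ M n + 1 := by
    intro n
    have e1 : M (n + 1) = M n + μ.real (A n) := Finset.sum_range_succ _ _
    have e2 : μ.real (A n) ≤ 1 := measureReal_le_one
    linarith
  have hM0 : M 0 = 0 := Finset.sum_range_zero _
  have hex : ∀ j : ℕ, ∃ n, ((j : ℝ) + 1) ^ 2 ≤ M n := fun j =>
    (hdiv.eventually_ge_atTop _).exists
  classical
  set N : ℕ → ℕ := fun j => Nat.find (hex j) with hN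
  have h1 : ∀ j : ℕ, ((j : ℝ) + 1) ^ 2 ≤ M (N j) := fun j => Nat.find_spec (hex j)
  have h3 : ∀ j n : ℕ, ((j : ℝ) + 1) ^ 2 ≤ M n → N j ≤ n := fun j n h => Nat.find_min' (hex j) h
  have h2 : ∀ j : ℕ, M (N j) ≤ ((j : ℝ) + 1) ^ 2 + 1 := by
    intro j
    rcases Nat.eq_zero_or_pos (N j) with h | h
    · rw [h, hM0]; positivity
    · have e1 : ¬ ((j : ℝ) + 1) ^ 2 ≤ M (N j - 1) := Nat.find_min (hex j) (by
        have : N j = Nat.find (hex j) := rfl
        omega)
      have e2 := hMstep (N j - 1)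
      rw [show N j - 1 + 1 = N j by omega] at e2
      push Not at e1
      linarith
  have hSm : ∀ n, Measurable (S n) := by
    intro n
    refine Finset.measurable_sum _ fun i _ => ?_
    exact measurable_const.indicator (hA i)
  have hC : 0 ≤ C := by
    have e1 := hvar (N 0)
    have e2 : 0 ≤ ∫ ω, ((∑ i ∈ range (N 0), (A i).indicator (fun _ => (1 : ℝ)) ω) -
      ∑ i ∈ range (N 0), μ.real (A i)) ^ 2 ∂μ := integral_nonneg fun ω => sq_nonneg _
    have e3 : 0 < M (N 0) := lt_of_lt_of_le (by positivity) (h1 0)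
    by_contra hcon
    push Not at hcon
    have := mul_neg_of_neg_of_pos hcon e3
    linarith
  have hbdd : ∀ n ω, |S n ω| ≤ n := by
    intro n ω
    calc |S n ω| ≤ ∑ i ∈ range n, |(A i).indicator (fun _ => (1 : ℝ)) ω| :=
        Finset.abs_sum_le_sum_abs _ _
      _ ≤ ∑ i ∈ range n, (1 : ℝ) := by
        refine Finset.sum_le_sum fun i _ => ?_
        by_cases h : ω ∈ A i
        · simp [h]
        · simp [h]
      _ = n := by simp
  -- the squares are summable
  set Y : ℕ → Ω → ℝ := fun j ω => (S (N j) ω / M (N j) - 1) ^ 2 with hY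
  have hYint : ∀ j, ∫⁻ ω, ENNReal.ofReal (Y j ω) ∂μ ≤ ENNReal.ofReal (C / ((j : ℝ) + 1) ^ 2) := by
    intro j
    have hMpos : 0 < M (N j) := lt_of_lt_of_le (by positivity) (h1 j)
    have hbY : ∀ ω, Y j ω = (1 / M (N j) ^ 2) * (S (N j) ω - M (N j)) ^ 2 := by
      intro ω
      rw [hY]
      field_simp
    have hmY : Measurable (Y j) := by
      exact (((hSm _).div_const _).sub_const _).pow_const _
    have hint : Integrable (Y j) μ := by
      refine Integrable.of_bound hmY.aestronglyMeasurable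
        ((1 / M (N j) ^ 2) * ((N j : ℝ) + M (N j)) ^ 2) (Eventually.of_forall fun ω => ?_)
      rw [Real.norm_eq_abs, abs_of_nonneg (by rw [hY]; positivity), hbY]
      refine mul_le_mul_of_nonneg_left ?_ (by positivity)
      have e1 := abs_le.mp (hbdd (N j) ω)
      refine sq_le_sq' ?_ ?_
      · linarith [e1.1]
      · linarith [e1.2]
    rw [← ofReal_integral_eq_lintegral_ofReal hint (Eventually.of_forall fun ω => by
      rw [hY]; positivity)]
    refine ENNReal.ofReal_le_ofReal ?_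
    have e1 : ∫ ω, Y j ω ∂μ = (1 / M (N j) ^ 2) * ∫ ω, (S (N j) ω - M (N j)) ^ 2 ∂μ := by
      rw [← integral_const_mul]
      exact integral_congr_ae (Eventually.of_forall fun ω => hbY ω)
    rw [e1]
    calc (1 / M (N j) ^ 2) * ∫ ω, (S (N j) ω - M (N j)) ^ 2 ∂μ
        ≤ (1 / M (N j) ^ 2) * (C * M (N j)) :=
          mul_le_mul_of_nonneg_left (hvar (N j)) (by positivity)
      _ = C / M (N j) := by field_simp
      _ ≤ C / ((j : ℝ) + 1) ^ 2 := div_le_div_of_nonneg_left hC (by positivity) (h1 j)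
  have hsum : ∫⁻ ω, ∑' j, ENNReal.ofReal (Y j ω) ∂μ ≠ ⊤ := by
    rw [lintegral_tsum fun j => ((((hSm _).div_const _).sub_const _).pow_const
      _).ennreal_ofReal.aemeasurable]
    refine ne_top_of_le_ne_top ?_ (ENNReal.tsum_le_tsum hYint)
    have e1 : Summable fun j : ℕ => C / ((j : ℝ) + 1) ^ 2 := by
      have := (Real.summable_one_div_nat_pow (p := 2)).mpr (by norm_num)
      have e2 := ((summable_nat_add_iff 1).mpr this).mul_left C
      refine e2.congr fun j => ?_
      push_cast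
      ring
    exact e1.tsum_ofReal_ne_top
  have hae := ae_lt_top' (μ := μ) (f := fun ω => ∑' j, ENNReal.ofReal (Y j ω)) (by
    refine AEMeasurable.tsum fun j => ?_
    exact ((((hSm _).div_const _).sub_const _).pow_const _).ennreal_ofReal.aemeasurable) hsum
  filter_upwards [hae] with ω hω
  have e1 := ENNReal.tendsto_atTop_zero_of_tsum_ne_top hω.ne
  have e2 : Tendsto (fun j => Y j ω) atTop (𝓝 0) := by
    have := (ENNReal.tendsto_toReal ENNReal.zero_ne_top).comp e1
    refine this.congr fun j => ?_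
    simp only [Function.comp_apply]
    rw [ENNReal.toReal_ofReal]
    rw [hY]; positivity
  have e3 : Tendsto (fun j => S (N j) ω / M (N j) - 1) atTop (𝓝 0) := by
    have := e2.sqrt
    rw [Real.sqrt_zero] at this
    rw [tendsto_zero_iff_abs_tendsto_zero]
    refine this.congr fun j => ?_
    rw [hY]
    exact Real.sqrt_sq_eq_abs _
  have e4 : Tendsto (fun j => S (N j) ω / M (N j)) atTop (𝓝 1) := by
    have := e3.add_const 1
    simpa using this
  refine interp (S := fun n => S n ω) (M := M) ?_ ?_ hM h1 h2 h3 hdiv e4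
  · intro a b hab
    refine Finset.sum_le_sum_of_subset_of_nonneg (Finset.range_mono hab) fun i _ _ => ?_
    by_cases h : ω ∈ A i
    · simp [h]
    · simp [h]
  · intro n
    refine Finset.sum_nonneg fun i _ => ?_
    by_cases h : ω ∈ A i
    · simp [h]
    · simp [h]

end Q263.ND
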