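import Mathlib
import Pool.Agent.Q263.ND.Slln

/-! Events on windows of an infinite product. -/

set_option autoImplicit false

open Finset Filter Topology MeasureTheory

namespace Q263.ND

/-- abstract variance bound -/
theorem var_bound {Ω : Type*} [MeasurableSpace Ω] (μ : Measure Ω) [IsProbabilityMeasure μ]
    (A : ℕ → Set Ω) (hA : ∀ i, MeasurableSet (A i)) (K : ℕ)
    (hind : ∀ i j, i + K ≤ j → μ.real (A i ∩ A j) = μ.real (A i) * μ.real (A j)) (n : ℕ) :
    ∫ ω, ((∑ i ∈ range n, (A i).indicator (fun _ => (1 : ℝ)) ω) -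
      ∑ i ∈ range n, μ.real (A i)) ^ 2 ∂μ ≤ (2 * K : ℝ) * ∑ i ∈ range n, μ.real (A i) := by
  set f : ℕ → Ω → ℝ := fun i ω => (A i).indicator (fun _ => (1 : ℝ)) ω with hf
  set a : ℕ → ℝ := fun i => μ.real (A i) with ha
  have hfm : ∀ i, Measurable (f i) := fun i => measurable_const.indicator (hA i)
  have hfint : ∀ i, Integrable (f i) μ := fun i => (integrable_const (1 : ℝ)).indicator (hA i)
  have hff : ∀ i j ω, f i ω * f j ω = (A i ∩ A j).indicator (fun _ => (1 : ℝ)) ω := by
    intro i j ω
    by_cases h1 : ω ∈ A i <;> by_cases h2 : ω ∈ A j <;> simp [hf, h1, h2]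
  have hffint : ∀ i j, Integrable (fun ω => f i ω * f j ω) μ := by
    intro i j
    refine ((integrable_const (1 : ℝ)).indicator ((hA i).inter (hA j))).congr ?_
    exact Eventually.of_forall fun ω => (hff i j ω).symm
  have h1 : ∀ ω, ((∑ i ∈ range n, f i ω) - ∑ i ∈ range n, a i) ^ 2 =
      ∑ i ∈ range n, ∑ j ∈ range n, (f i ω * f j ω - a i * f j ω - a j * f i ω + a i * a j) := by
    intro ω
    rw [← Finset.sum_sub_distrib, pow_two, Finset.sum_mul_sum]
    refine Finset.sum_congr rfl fun i _ => Finset.sum_congr rfl fun j _ => ?_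
    ring
  have h2 : ∀ i j, Integrable (fun ω => f i ω * f j ω - a i * f j ω - a j * f i ω + a i * a j) μ := by
    intro i j
    exact (((hffint i j).sub ((hfint j).const_mul _)).sub ((hfint i).const_mul _)).add
      (integrable_const _)
  have h3 : ∀ i j, ∫ ω, (f i ω * f j ω - a i * f j ω - a j * f i ω + a i * a j) ∂μ =
      μ.real (A i ∩ A j) - a i * a j := by
    intro i j
    have e0 : ∀ i, ∫ ω, f i ω ∂μ = a i := by
      intro i
      simp only [hf]
      rw [integral_indicator_const (1 : ℝ) (hA i)]
      simp [ha]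
    have e1 : ∫ ω, f i ω * f j ω ∂μ = μ.real (A i ∩ A j) := by
      rw [integral_congr_ae (Eventually.of_forall fun ω => hff i j ω),
        integral_indicator_const (1 : ℝ) ((hA i).inter (hA j))]
      simp
    have g1 : Integrable (fun ω => a i * f j ω) μ := (hfint j).const_mul _
    have g2 : Integrable (fun ω => a j * f i ω) μ := (hfint i).const_mul _
    have g3 : Integrable (fun ω => f i ω * f j ω - a i * f j ω) μ := (hffint i j).sub g1
    have g4 : Integrable (fun ω => f i ω * f j ω - a i * f j ω - a j * f i ω) μ := g3.sub g2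
    rw [integral_add g4 (integrable_const _), integral_sub g3 g2, integral_sub (hffint i j) g1, e1,
      integral_const_mul, integral_const_mul, e0, e0, integral_const]
    simp only [probReal_univ, one_smul]
    ring
  have h4 : ∫ ω, ((∑ i ∈ range n, f i ω) - ∑ i ∈ range n, a i) ^ 2 ∂μ =
      ∑ i ∈ range n, ∑ j ∈ range n, (μ.real (A i ∩ A j) - a i * a j) := by
    rw [integral_congr_ae (Eventually.of_forall fun ω => h1 ω), integral_finsetSum _
      fun i _ => integrable_finsetSum _ fun j _ => h2 i j]
    refine Finset.sum_congr rfl fun i _ => ?_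
    rw [integral_finsetSum _ fun j _ => h2 i j]
    exact Finset.sum_congr rfl fun j _ => h3 i j
  have ha0 : ∀ i, 0 ≤ a i := fun i => measureReal_nonneg
  have h5 : ∀ i j, μ.real (A i ∩ A j) - a i * a j ≤
      if i < j + K ∧ j < i + K then a i else 0 := by
    intro i j
    split_ifs with h
    · have e1 : μ.real (A i ∩ A j) ≤ a i := measureReal_mono Set.inter_subset_left
      have e2 := mul_nonneg (ha0 i) (ha0 j)
      linarith
    · rw [not_and_or, not_lt, not_lt] at h
      rcases h with h | h
      · rw [Set.inter_comm, hind j i h, mul_comm]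
        exact (sub_self _).le
      · rw [hind i j h]
        exact (sub_self _).le
  have h6 : ∀ i, ∑ j ∈ range n, (if i < j + K ∧ j < i + K then a i else 0) ≤ (2 * K : ℝ) * a i := by
    intro i
    rw [← Finset.sum_filter, Finset.sum_const, nsmul_eq_mul]
    refine mul_le_mul_of_nonneg_right ?_ (ha0 i)
    have e1 : (range n).filter (fun j => i < j + K ∧ j < i + K) ⊆ Finset.Ico (i + 1 - K) (i + K) := by
      intro j hj
      rw [Finset.mem_filter] at hj
      rw [Finset.mem_Ico]
      omega
    have e2 := Finset.card_le_card e1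
    rw [Nat.card_Ico] at e2
    have e3 : #((range n).filter (fun j => i < j + K ∧ j < i + K)) ≤ 2 * K := by omega
    exact_mod_cast e3
  rw [h4]
  calc ∑ i ∈ range n, ∑ j ∈ range n, (μ.real (A i ∩ A j) - a i * a j)
      ≤ ∑ i ∈ range n, (2 * K : ℝ) * a i := by
        refine Finset.sum_le_sum fun i _ => ?_
        exact (Finset.sum_le_sum fun j _ => h5 i j).trans (h6 i)
    _ = _ := by rw [Finset.mul_sum]

variable (ν : ℕ → Measure ℕ) [∀ i, IsProbabilityMeasure (ν i)]

/-- the event that the digits in the window `[i+s, i+s+K)` lie in given sets -/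
def win (s K : ℕ) (T : ℕ → ℕ → Set ℕ) (i : ℕ) : Set (ℕ → ℕ) :=
  Set.pi (↑(Finset.Ico (i + s) (i + s + K)) : Set ℕ) (T i)

lemma win_meas (s K : ℕ) (T : ℕ → ℕ → Set ℕ) (i : ℕ) : MeasurableSet (win s K T i) :=
  MeasurableSet.pi (Finset.countable_toSet _) fun _ _ => MeasurableSet.of_discrete

lemma win_real (s K : ℕ) (T : ℕ → ℕ → Set ℕ) (i : ℕ) :
    (Measure.infinitePi ν).real (win s K T i) =
      ∏ m ∈ Finset.Ico (i + s) (i + s + K), (ν m).real (T i m) := by
  rw [Measure.real, win, Measure.infinitePi_pi _ fun _ _ => MeasurableSet.of_discrete,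
    ENNReal.toReal_prod]
  rfl

lemma win_ind (s K : ℕ) (T : ℕ → ℕ → Set ℕ) (i j : ℕ) (h : i + K ≤ j) :
    (Measure.infinitePi ν).real (win s K T i ∩ win s K T j) =
      (Measure.infinitePi ν).real (win s K T i) * (Measure.infinitePi ν).real (win s K T j) := by
  have hdis : Disjoint (Finset.Ico (i + s) (i + s + K)) (Finset.Ico (j + s) (j + s + K)) := by
    rw [Finset.disjoint_left]
    intro m h1 h2
    rw [Finset.mem_Ico] at h1 h2
    omega
  have h1 : win s K T i ∩ win s K T j =
      Set.pi (↑(Finset.Ico (i + s) (i + s + K) ∪ Finset.Ico (j + s) (j + s + K)) : Set ℕ)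
        (fun m => if m < i + s + K then T i m else T j m) := by
    ext ω
    simp only [win, Set.mem_inter_iff, Set.mem_pi, Finset.coe_union, Finset.coe_Ico,
      Set.mem_union, Set.mem_Ico]
    constructor
    · rintro ⟨ha, hb⟩ m (hm | hm)
      · rw [if_pos hm.2]; exact ha m hm
      · rw [if_neg (by omega)]; exact hb m hm
    · intro ha
      constructor
      · intro m hm
        have := ha m (Or.inl hm)
        rwa [if_pos hm.2] at this
      · intro m hm
        have := ha m (Or.inr hm)
        rwa [if_neg (by omega)] at this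
  rw [h1, Measure.real, Measure.infinitePi_pi _ fun _ _ => MeasurableSet.of_discrete,
    Finset.prod_union hdis, ENNReal.toReal_mul, ENNReal.toReal_prod, ENNReal.toReal_prod,
    win_real, win_real]
  congr 1
  · refine Finset.prod_congr rfl fun m hm => ?_
    rw [Finset.mem_Ico] at hm
    rw [if_pos hm.2]
    rfl
  · refine Finset.prod_congr rfl fun m hm => ?_
    rw [Finset.mem_Ico] at hm
    rw [if_neg (by omega)]
    rfl

/-- **Strong law for windows.** -/
theorem win_slln (s K : ℕ) (T : ℕ → ℕ → Set ℕ)
    (hdiv : Tendsto (fun n => ∑ i ∈ range n, (Measure.infinitePi ν).real (win s K T i))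
      atTop atTop) :
    ∀ᵐ ω ∂(Measure.infinitePi ν), Tendsto (fun n =>
      (∑ i ∈ range n, (win s K T i).indicator (fun _ => (1 : ℝ)) ω) /
      ∑ i ∈ range n, (Measure.infinitePi ν).real (win s K T i)) atTop (𝓝 1) :=
  slln _ _ (win_meas s K T) (2 * K) (var_bound _ _ (win_meas s K T) K (win_ind ν s K T)) hdiv

end Q263.ND
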