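import Mathlib
import Pool.Agent.Q263.ND.Window

/-! Mass distribution for images of the uniform product measure. -/

set_option autoImplicit false

open Finset Filter Topology MeasureTheory
open scoped ENNReal NNReal

namespace Q263.ND

/-- uniform measure on `{0,…,b-1}` -/
noncomputable def uni (b : ℕ) : Measure ℕ :=
  (PMF.uniformOfFinset (Finset.range (b - 1 + 1))
    (Finset.nonempty_range_iff.mpr (Nat.succ_ne_zero _))).toMeasure

instance (b : ℕ) : IsProbabilityMeasure (uni b) := by unfold uni; infer_instance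

lemma uni_apply {b : ℕ} (hb : 1 ≤ b) (S : Set ℕ) [DecidablePred (· ∈ S)] :
    uni b S = (#((range b).filter (· ∈ S)) : ℝ≥0∞) / b := by
  rw [uni, PMF.toMeasure_uniformOfFinset_apply _ _ MeasurableSet.of_discrete, Finset.card_range,
    Nat.sub_add_cancel hb]
  congr 2
  congr

lemma uni_real {b : ℕ} (hb : 1 ≤ b) (S : Set ℕ) [DecidablePred (· ∈ S)] :
    (uni b).real S = (#((range b).filter (· ∈ S)) : ℝ) / b := by
  rw [Measure.real, uni_apply hb, ENNReal.toReal_div]
  simp

/-- the uniform product measure -/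
noncomputable def mu (b : ℕ → ℕ) : Measure (ℕ → ℕ) := Measure.infinitePi fun i => uni (b i)

instance (b : ℕ → ℕ) : IsProbabilityMeasure (mu b) := by unfold mu; infer_instance

lemma ae_lt {b : ℕ → ℕ} (hb : ∀ i, 2 ≤ b i) : ∀ᵐ ω ∂(mu b), ∀ i, ω i < b i := by
  rw [ae_all_iff]
  intro i
  classical
  have h1 : (mu b) (Set.pi (↑({i} : Finset ℕ) : Set ℕ) fun i => {x | x < b i}) = 1 := by
    rw [mu, Measure.infinitePi_pi _ fun _ _ => MeasurableSet.of_discrete, Finset.prod_singleton,
      uni_apply (by have := hb i; omega)]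
    have h3 : #((range (b i)).filter (· ∈ {x | x < b i})) = b i := by
      rw [Finset.filter_true_of_mem]
      · simp
      · intro x hx; simpa using hx
    have h0 : (b i : ℝ≥0∞) ≠ 0 := by
      have := hb i
      exact_mod_cast (by omega : b i ≠ 0)
    rw [h3]
    exact ENNReal.div_self h0 (ENNReal.natCast_ne_top _)
  have h2 := (prob_compl_eq_zero_iff₀ (μ := mu b)
    (s := Set.pi (↑({i} : Finset ℕ) : Set ℕ) fun i => {x | x < b i})
    (MeasurableSet.pi (Finset.countable_toSet _) fun _ _ =>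
      MeasurableSet.of_discrete).nullMeasurableSet).mpr h1
  rw [ae_iff]
  refine measure_mono_null ?_ h2
  intro ω hω
  simp only [Set.mem_ofPred_eq] at hω
  simp only [Set.mem_compl_iff, Set.mem_pi, Finset.coe_singleton, Set.mem_singleton_iff,
    forall_eq, Set.mem_ofPred_eq]
  exact hω

/-- integer parts -/
def cn (b f : ℕ → ℕ) : ℕ → ℕ
  | 0 => 0
  | n + 1 => cn b f n * b (n + 1) + f (n + 1)

/-- products of bases -/
noncomputable def Pb (b : ℕ → ℕ) (n : ℕ) : ℝ := ∏ i ∈ Icc 1 n, (b i : ℝ)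

lemma Pb_succ (b : ℕ → ℕ) (n : ℕ) : Pb b (n + 1) = Pb b n * b (n + 1) :=
  Finset.prod_Icc_succ_top (by omega) _

lemma Pb_zero (b : ℕ → ℕ) : Pb b 0 = 1 := by simp [Pb]

section

variable {b : ℕ → ℕ} (hb : ∀ i, 2 ≤ b i)

include hb in
lemma Pb_pos (n : ℕ) : 0 < Pb b n := by
  refine Finset.prod_pos fun i _ => ?_
  have := hb i
  exact_mod_cast (by omega : 0 < b i)

include hb in
lemma Pb_mono : Monotone (Pb b) := by
  refine monotone_nat_of_le_succ fun n => ?_
  rw [Pb_succ]
  have h1 := Pb_pos hb n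
  have h2 : (1 : ℝ) ≤ b (n + 1) := by
    have := hb (n + 1)
    exact_mod_cast (by omega : 1 ≤ b (n + 1))
  nlinarith

include hb in
lemma sum_eq (f : ℕ → ℕ) (n : ℕ) :
    ∑ i ∈ range n, (f (i + 1) : ℝ) / Pb b (i + 1) = cn b f n / Pb b n := by
  induction n with
  | zero => simp [cn]
  | succ n ih =>
    rw [Finset.sum_range_succ, ih, cn, Pb_succ]
    have h1 := (Pb_pos hb n).ne'
    have h2 : (b (n + 1) : ℝ) ≠ 0 := by
      have := hb (n + 1)
      exact_mod_cast (by omega : b (n + 1) ≠ 0)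
    push_cast
    field_simp

include hb in
lemma cn_bounds {f : ℕ → ℕ} (hf : ∀ i, f i < b i) {x : ℝ}
    (hx : HasSum (fun n : ℕ => (f (n + 1) : ℝ) / Pb b (n + 1)) x) (n : ℕ) :
    (cn b f n : ℝ) ≤ x * Pb b n ∧ x * Pb b n ≤ cn b f n + 1 := by
  have hP := Pb_pos hb n
  have hnn : ∀ i, 0 ≤ (f (i + 1) : ℝ) / Pb b (i + 1) := fun i =>
    div_nonneg (Nat.cast_nonneg _) (Pb_pos hb _).le
  constructor
  · have h1 := sum_le_hasSum (range n) (fun i _ => hnn i) hx
    rw [sum_eq hb, div_le_iff₀ hP] at h1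
    exact h1
  · have hanti : Antitone fun m => ((cn b f m : ℝ) + 1) / Pb b m := by
      refine antitone_nat_of_succ_le fun m => ?_
      have h1 := Pb_pos hb m
      have h2 : (0 : ℝ) < b (m + 1) := by
        have := hb (m + 1)
        exact_mod_cast (by omega : 0 < b (m + 1))
      rw [Pb_succ, cn, div_le_div_iff₀ (mul_pos h1 h2) h1]
      have h3 : (f (m + 1) : ℝ) + 1 ≤ b (m + 1) := by exact_mod_cast hf (m + 1)
      push_cast
      have h4 := mul_le_mul_of_nonneg_left h3 h1.le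
      nlinarith
    have h2 : ∀ᶠ m in atTop, ∑ i ∈ range m, (f (i + 1) : ℝ) / Pb b (i + 1) ≤
        ((cn b f n : ℝ) + 1) / Pb b n := by
      filter_upwards [eventually_ge_atTop n] with m hm
      rw [sum_eq hb]
      refine le_trans ?_ (hanti hm)
      exact div_le_div_of_nonneg_right (by linarith) (Pb_pos hb m).le
    have h3 := le_of_tendsto hx.tendsto_sum_nat h2
    rwa [le_div_iff₀ hP] at h3

/-- the integer part determines the digits -/
lemma det_digits (b : ℕ → ℕ) (n : ℕ) : ∀ c : ℕ, ∃ v : ℕ → ℕ, ∀ f : ℕ → ℕ, (∀ i, f i < b i) →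
    cn b f n = c → ∀ i ∈ Icc 1 n, f i = v i := by
  induction n with
  | zero => intro c; exact ⟨fun _ => 0, fun f _ _ i hi => by simp at hi⟩
  | succ n ih =>
    intro c
    obtain ⟨v, hv⟩ := ih (c / b (n + 1))
    refine ⟨Function.update v (n + 1) (c % b (n + 1)), fun f hf hc i hi => ?_⟩
    rw [cn] at hc
    have h1 : c % b (n + 1) = f (n + 1) := by
      rw [← hc, Nat.mul_add_mod_self_right, Nat.mod_eq_of_lt (hf _)]
    have h2 : c / b (n + 1) = cn b f n := by
      rw [← hc, mul_comm, Nat.mul_add_div (by have := hf (n + 1); omega),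
        Nat.div_eq_of_lt (hf _), add_zero]
    by_cases hi' : i = n + 1
    · rw [hi', Function.update_self, h1]
    · rw [Function.update_of_ne hi']
      refine hv f hf h2.symm i ?_
      rw [Finset.mem_Icc] at hi ⊢
      omega

include hb in
/-- growth of the products -/
lemma growth (hlim : Tendsto b atTop atTop) {δ : ℝ} (hδ : 0 < δ) :
    ∃ N : ℕ, ∀ m, N ≤ m → (2 : ℝ) ^ (m + 3) ≤ Pb b m ^ δ := by
  obtain ⟨K, hK⟩ : ∃ K : ℕ, (4 : ℝ) ≤ (K : ℝ) ^ δ :=
    ((((tendsto_rpow_atTop hδ).comp tendsto_natCast_atTop_atTop).eventually_ge_atTop 4)).exists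
  obtain ⟨i0, hi0⟩ := eventually_atTop.mp (hlim.eventually_ge_atTop K)
  refine ⟨2 * i0 + 3, fun m hm => ?_⟩
  have h1 : ∀ j : ℕ, (K : ℝ) ^ j ≤ Pb b (i0 + j) := by
    intro j
    induction j with
    | zero =>
      rw [pow_zero, add_zero, ← Pb_zero b]
      exact Pb_mono hb (Nat.zero_le _)
    | succ j ih =>
      rw [← add_assoc, Pb_succ, pow_succ]
      have e1 : (K : ℝ) ≤ b (i0 + j + 1) := by exact_mod_cast hi0 (i0 + j + 1) (by omega)
      exact mul_le_mul ih e1 (Nat.cast_nonneg _) (Pb_pos hb _).le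
  obtain ⟨j, rfl⟩ : ∃ j, m = i0 + j := ⟨m - i0, by omega⟩
  calc (2 : ℝ) ^ (i0 + j + 3) ≤ 2 ^ (2 * j) := pow_le_pow_right₀ (by norm_num) (by omega)
    _ = 4 ^ j := by rw [pow_mul]; norm_num
    _ ≤ ((K : ℝ) ^ δ) ^ j := pow_le_pow_left₀ (by norm_num) hK _
    _ = ((K : ℝ) ^ j) ^ δ := by
      rw [← Real.rpow_natCast, ← Real.rpow_mul (Nat.cast_nonneg _), mul_comm,
        Real.rpow_mul (Nat.cast_nonneg _), Real.rpow_natCast]
    _ ≤ _ := Real.rpow_le_rpow (by positivity) (h1 j) hδ.le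

variable {F : (ℕ → ℕ) → ℕ → ℕ}
  (hFlt : ∀ ω : ℕ → ℕ, (∀ i, ω i < b i) → ∀ i, F ω i < b i)
  {S : ℕ → ℕ → Finset ℕ} (hS : ∀ i v, #(S i v) ≤ 2) (hSF : ∀ ω i, ω i ∈ S i (F ω i))

include hb hFlt hS hSF in
/-- measure of a cylinder -/
lemma cyl_le (n : ℕ) (c : ℤ) : (mu b).real {ω | (∀ i, ω i < b i) ∧ (cn b (F ω) n : ℤ) = c} ≤
    2 ^ n / Pb b n := by
  have hP := Pb_pos hb n
  obtain ⟨v, hv⟩ := det_digits b n c.toNat
  have h1 : {ω | (∀ i, ω i < b i) ∧ (cn b (F ω) n : ℤ) = c} ⊆
      Set.pi (↑(Finset.Icc 1 n) : Set ℕ) (fun i => ↑(S i (v i))) := by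
    rintro ω ⟨h1, h2⟩ i hi
    have h3 : cn b (F ω) n = c.toNat := by omega
    have h4 := hv (F ω) (hFlt ω h1) h3 i hi
    have h5 := hSF ω i
    rw [h4] at h5
    exact h5
  refine (measureReal_mono h1).trans ?_
  rw [Measure.real, mu, Measure.infinitePi_pi _ fun _ _ => MeasurableSet.of_discrete,
    ENNReal.toReal_prod, Pb]
  have h2 : (2 : ℝ) ^ n = ∏ i ∈ Icc 1 n, (2 : ℝ) := by simp
  rw [h2, ← Finset.prod_div_distrib]
  refine Finset.prod_le_prod (fun _ _ => ENNReal.toReal_nonneg) fun i _ => ?_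
  have h3 : ((uni (b i)) ↑(S i (v i))).toReal = (uni (b i)).real ↑(S i (v i)) := rfl
  rw [h3, uni_real (by have := hb i; omega)]
  refine div_le_div_of_nonneg_right ?_ (Nat.cast_nonneg _)
  have h4 : #((range (b i)).filter (· ∈ (↑(S i (v i)) : Set ℕ))) ≤ 2 := by
    refine (Finset.card_le_card ?_).trans (hS i (v i))
    intro x hx
    rw [Finset.mem_filter] at hx
    exact_mod_cast hx.2
  exact_mod_cast h4

include hb hFlt hS hSF in
/-- measure of an interval -/
lemma int_le {x : (ℕ → ℕ) → ℝ} (hx : ∀ ω : ℕ → ℕ, (∀ i, ω i < b i) →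
      HasSum (fun n : ℕ => (F ω (n + 1) : ℝ) / Pb b (n + 1)) (x ω)) (a r : ℝ) (hr : 0 ≤ r) (n : ℕ) :
    (mu b).real {ω | x ω ∈ Set.Icc a (a + r)} ≤ 2 ^ n * (r + 2 / Pb b n) := by
  have hP := Pb_pos hb n
  set I : Finset ℤ := Finset.Icc ⌈a * Pb b n - 1⌉ ⌊(a + r) * Pb b n⌋ with hI
  have h1 : (mu b).real {ω | x ω ∈ Set.Icc a (a + r)} ≤
      (mu b).real (⋃ c ∈ I, {ω | (∀ i, ω i < b i) ∧ (cn b (F ω) n : ℤ) = c}) := by
    have h0 := ae_lt hb
    refine ENNReal.toReal_mono (measure_ne_top _ _) (measure_mono_ae ?_)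
    filter_upwards [h0] with ω hω hmem
    obtain ⟨e1, e2⟩ := cn_bounds hb (hFlt ω hω) (hx ω hω) n
    obtain ⟨e3, e4⟩ := hmem
    refine Set.mem_biUnion (x := (cn b (F ω) n : ℤ)) ?_ ⟨hω, rfl⟩
    rw [hI, Finset.coe_Icc, Set.mem_Icc]
    constructor
    · rw [Int.ceil_le]
      have := mul_le_mul_of_nonneg_right e3 hP.le
      push_cast
      linarith
    · rw [Int.le_floor]
      have := mul_le_mul_of_nonneg_right e4 hP.le
      push_cast
      linarith
  refine h1.trans ((measureReal_biUnion_finset_le _ _).trans ?_)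
  refine (Finset.sum_le_sum fun c _ => cyl_le hb hFlt hS hSF n c).trans ?_
  rw [Finset.sum_const, nsmul_eq_mul, hI, Int.card_Icc]
  have h2 : (((⌊(a + r) * Pb b n⌋ + 1 - ⌈a * Pb b n - 1⌉).toNat : ℕ) : ℝ) ≤ r * Pb b n + 2 := by
    have e1 := Int.floor_le ((a + r) * Pb b n)
    have e2 := Int.le_ceil (a * Pb b n - 1)
    rcases le_total 0 (⌊(a + r) * Pb b n⌋ + 1 - ⌈a * Pb b n - 1⌉) with h | h
    · have e3 : (((⌊(a + r) * Pb b n⌋ + 1 - ⌈a * Pb b n - 1⌉).toNat : ℕ) : ℝ) =
          ((⌊(a + r) * Pb b n⌋ + 1 - ⌈a * Pb b n - 1⌉ : ℤ) : ℝ) := by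
        exact_mod_cast Int.toNat_of_nonneg h
      rw [e3]
      push_cast
      linarith
    · rw [Int.toNat_of_nonpos h]
      have := mul_nonneg hr hP.le
      push_cast
      linarith
  calc _ ≤ (r * Pb b n + 2) * (2 ^ n / Pb b n) :=
        mul_le_mul_of_nonneg_right h2 (by positivity)
    _ = _ := by field_simp

include hb hFlt hS hSF in
/-- **Dimension of sets of full image measure.** -/
theorem dim_ge_one (hlim : Tendsto b atTop atTop) (hFm : ∀ i, Measurable fun ω => F ω i)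
    {x : (ℕ → ℕ) → ℝ} (hx : ∀ ω : ℕ → ℕ, (∀ i, ω i < b i) →
      HasSum (fun n : ℕ => (F ω (n + 1) : ℝ) / Pb b (n + 1)) (x ω))
    {G : Set ℝ} (hG : ∀ᵐ ω ∂(mu b), x ω ∈ G) : 1 ≤ dimH G := by
  have hxm : AEMeasurable x (mu b) := by
    refine aemeasurable_of_tendsto_metrizable_ae' (f := fun n ω =>
      ∑ i ∈ range n, (F ω (i + 1) : ℝ) / Pb b (i + 1)) (fun n => ?_) ?_
    · refine (Finset.measurable_sum _ fun i _ => ?_).aemeasurable
      exact ((measurable_of_countable (fun k : ℕ => (k : ℝ))).comp (hFm (i + 1))).div_const _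
    · filter_upwards [ae_lt hb] with ω hω
      exact (hx ω hω).tendsto_sum_nat
  refine le_of_forall_lt fun d hd => ?_
  -- choose an intermediate dimension
  obtain ⟨d', hdd', hd'1⟩ := exists_between hd
  obtain ⟨e, rfl⟩ : ∃ e : ℝ≥0, d' = e := ⟨d'.toNNReal, (ENNReal.coe_toNNReal (by
    exact (hd'1.trans ENNReal.one_lt_top).ne)).symm⟩
  refine hdd'.trans_le ?_
  apply le_dimH_of_hausdorffMeasure_ne_zero
  have he1 : (e : ℝ) < 1 := by exact_mod_cast hd'1
  have he0 : (0 : ℝ) < e := by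
    have : (0 : ℝ≥0∞) < e := lt_of_le_of_lt (zero_le) hdd'
    exact_mod_cast this
  obtain ⟨N, hN⟩ := growth hb hlim (δ := 1 - e) (by linarith)
  have hPN := Pb_pos hb N
  -- the key estimate
  have key : (mu b).map x ≤ μH[(e : ℝ)] := by
    refine Measure.le_hausdorffMeasure _ _ (ENNReal.ofReal (1 / (2 * Pb b N))) (by
      rw [ENNReal.ofReal_pos]; positivity) fun U hU => ?_
    rcases U.eq_empty_or_nonempty with rfl | ⟨u, hu⟩
    · simp
    have hfin : Metric.ediam U ≠ ⊤ := ne_top_of_le_ne_top ENNReal.ofReal_ne_top hU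
    set r : ℝ := (Metric.ediam U).toReal with hr
    have hr0 : 0 ≤ r := ENNReal.toReal_nonneg
    have hrN : r ≤ 1 / (2 * Pb b N) := by
      rw [hr]
      exact ENNReal.toReal_le_of_le_ofReal (by positivity) hU
    have hsub : U ⊆ Set.Icc (u - r) (u - r + 2 * r) := by
      intro v hv
      have e1 : edist v u ≤ Metric.ediam U := Metric.edist_le_ediam_of_mem hv hu
      have e2 : dist v u ≤ r := by
        rw [hr, dist_edist]
        exact ENNReal.toReal_mono hfin e1
      rw [Real.dist_eq, abs_le] at e2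
      constructor <;> linarith [e2.1, e2.2]
    have hmap : (mu b).map x U ≤ ENNReal.ofReal ((mu b).real {ω | x ω ∈ Set.Icc (u - r) (u - r + 2 * r)}) := by
      refine (measure_mono hsub).trans ?_
      rw [Measure.map_apply_of_aemeasurable hxm measurableSet_Icc, Measure.real,
        ENNReal.ofReal_toReal (measure_ne_top _ _)]
      rfl
    have hest : ∀ n : ℕ, (mu b).real {ω | x ω ∈ Set.Icc (u - r) (u - r + 2 * r)} ≤
        2 ^ (n + 1) * (r + 1 / Pb b n) := by
      intro n
      refine (int_le hb hFlt hS hSF hx (u - r) (2 * r) (by positivity) n).trans (le_of_eq ?_)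
      rw [pow_succ]
      ring
    refine hmap.trans ?_
    have hD : Metric.ediam U = ENNReal.ofReal r := by
      rw [hr, ENNReal.ofReal_toReal hfin]
    rw [hD, ENNReal.ofReal_rpow_of_nonneg hr0 he0.le]
    refine ENNReal.ofReal_le_ofReal ?_
    -- growth gives smallness
    have hgr : ∀ m, N ≤ m → (2 : ℝ) ^ (m + 3) ≤ Pb b m ^ (1 - (e : ℝ)) := hN
    rcases hr0.eq_or_lt with h0 | hpos
    · rw [← h0, Real.zero_rpow he0.ne']
      -- the measure is at most `2^{n+1}/P_n` for all `n`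
      have hle : ∀ m, N ≤ m → (mu b).real {ω | x ω ∈ Set.Icc (u - r) (u - r + 2 * r)} ≤
          1 / Pb b m ^ (e : ℝ) := by
        intro m hm
        refine (hest m).trans ?_
        rw [← h0, zero_add]
        have hPm := Pb_pos hb m
        have e1 : (2 : ℝ) ^ (m + 1) ≤ Pb b m ^ (1 - (e : ℝ)) :=
          (pow_le_pow_right₀ (by norm_num) (by omega)).trans (hgr m hm)
        calc (2 : ℝ) ^ (m + 1) * (1 / Pb b m) ≤ Pb b m ^ (1 - (e : ℝ)) * (1 / Pb b m) :=
              mul_le_mul_of_nonneg_right e1 (by positivity)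
          _ = 1 / Pb b m ^ (e : ℝ) := by
            rw [Real.rpow_sub hPm, Real.rpow_one]
            field_simp
      have hlimP : Tendsto (fun m => 1 / Pb b m ^ (e : ℝ)) atTop (𝓝 0) := by
        have e1 : Tendsto (Pb b) atTop atTop := by
          refine tendsto_atTop_mono (f := fun m : ℕ => (2 : ℝ) ^ m) (fun m => ?_)
            (tendsto_pow_atTop_atTop_of_one_lt (by norm_num))
          rw [Pb]
          calc (2 : ℝ) ^ m = ∏ i ∈ Icc 1 m, (2 : ℝ) := by simp
            _ ≤ _ := Finset.prod_le_prod (fun _ _ => by norm_num) fun i _ => by exact_mod_cast hb i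
        have e2 := (tendsto_rpow_atTop he0).comp e1
        have e3 := e2.inv_tendsto_atTop
        refine e3.congr fun m => ?_
        simp
      exact ge_of_tendsto hlimP (by
        filter_upwards [eventually_ge_atTop N] with m hm
        have e := hle m hm
        rw [← h0] at e
        exact e)
    · -- choose the scale
      have hex : ∃ n, 1 / Pb b n ≤ r := by
        have e1 : Tendsto (Pb b) atTop atTop := by
          refine tendsto_atTop_mono (f := fun m : ℕ => (2 : ℝ) ^ m) (fun m => ?_)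
            (tendsto_pow_atTop_atTop_of_one_lt (by norm_num))
          rw [Pb]
          calc (2 : ℝ) ^ m = ∏ i ∈ Icc 1 m, (2 : ℝ) := by simp
            _ ≤ _ := Finset.prod_le_prod (fun _ _ => by norm_num) fun i _ => by exact_mod_cast hb i
        obtain ⟨n, hn⟩ := (e1.eventually_ge_atTop (1 / r)).exists
        refine ⟨n, ?_⟩
        have := Pb_pos hb n
        rw [div_le_iff₀ this]
        rw [div_le_iff₀ hpos] at hn
        linarith
      classical
      set n := Nat.find hex with hn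
      have hn1 : 1 / Pb b n ≤ r := Nat.find_spec hex
      have hn2 : ∀ m, m < n → r < 1 / Pb b m := fun m hm => not_le.mp (Nat.find_min hex hm)
      have hnN : N < n := by
        by_contra hcon
        push Not at hcon
        have e1 : 1 / Pb b N ≤ 1 / Pb b n :=
          one_div_le_one_div_of_le (Pb_pos hb n) (Pb_mono hb hcon)
        have e2 : 1 / (2 * Pb b N) < 1 / Pb b N := by
          apply one_div_lt_one_div_of_lt hPN
          linarith
        linarith
      have hlt := hn2 (n - 1) (by omega)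
      have hPm := Pb_pos hb (n - 1)
      have e1 := hgr (n - 1) (by omega)
      rw [show n - 1 + 3 = n + 2 by omega] at e1
      have e2 : Pb b (n - 1) ≤ 1 / r := by
        rw [le_div_iff₀ hpos]
        rw [lt_div_iff₀ hPm] at hlt
        linarith
      have e3 : Pb b (n - 1) ^ (1 - (e : ℝ)) ≤ (1 / r) ^ (1 - (e : ℝ)) :=
        Real.rpow_le_rpow hPm.le e2 (by linarith)
      calc (mu b).real {ω | x ω ∈ Set.Icc (u - r) (u - r + 2 * r)}
          ≤ 2 ^ (n + 1) * (r + 1 / Pb b n) := hest n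
        _ ≤ 2 ^ (n + 1) * (r + r) := by
            refine mul_le_mul_of_nonneg_left ?_ (by positivity)
            linarith
        _ = 2 ^ (n + 2) * r := by rw [pow_succ 2 (n + 1)]; ring
        _ ≤ (1 / r) ^ (1 - (e : ℝ)) * r := mul_le_mul_of_nonneg_right (e1.trans e3) hpos.le
        _ = r ^ (e : ℝ) := by
            rw [one_div, Real.inv_rpow hpos.le, Real.rpow_sub hpos, Real.rpow_one]
            field_simp
  intro hzero
  have h1 : (mu b).map x G = 0 := le_antisymm ((key G).trans hzero.le) (zero_le)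
  have h2 := Measure.le_map_apply hxm G
  rw [h1] at h2
  have h3 : (mu b) (x ⁻¹' G) = 1 := by
    have h4 : (mu b) (x ⁻¹' G)ᶜ = 0 := by
      rw [ae_iff] at hG
      exact hG
    have h5 := measure_univ (μ := mu b)
    have h6 := measure_union_le (μ := mu b) (x ⁻¹' G) (x ⁻¹' G)ᶜ
    rw [Set.union_compl_self, h5, h4, add_zero] at h6
    exact le_antisymm prob_le_one h6
  rw [h3] at h2
  simp at h2

end

end Q263.ND
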