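import Mathlib
import Pool.Agent.Q263.ND.Frost

/-! From digit maps to sets of real numbers of full dimension. -/

set_option autoImplicit false

open Finset Filter Topology MeasureTheory
open scoped ENNReal NNReal

namespace Q263.ND

section

variable {b : ℕ → ℕ} (hb : ∀ i, 2 ≤ b i)

include hb in
lemma cn_anti {f : ℕ → ℕ} (hf : ∀ i, f i < b i) : Antitone fun m => ((cn b f m : ℝ) + 1) / Pb b m := by
  refine antitone_nat_of_succ_le fun m => ?_
  have h1 := Pb_pos hb m
  have h2 : (0 : ℝ) < b (m + 1) := by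
    have := hb (m + 1)
    exact_mod_cast (by omega : 0 < b (m + 1))
  rw [Pb_succ, cn, div_le_div_iff₀ (mul_pos h1 h2) h1]
  have h3 : (f (m + 1) : ℝ) + 1 ≤ b (m + 1) := by exact_mod_cast hf (m + 1)
  push_cast
  have h4 := mul_le_mul_of_nonneg_left h3 h1.le
  nlinarith

include hb in
lemma summable_digits {f : ℕ → ℕ} (hf : ∀ i, f i < b i) :
    Summable (fun n : ℕ => (f (n + 1) : ℝ) / Pb b (n + 1)) := by
  refine summable_of_sum_range_le (c := 1) (fun n => div_nonneg (Nat.cast_nonneg _)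
    (Pb_pos hb _).le) fun n => ?_
  rw [sum_eq hb]
  have h1 := cn_anti hb hf (Nat.zero_le n)
  simp only [cn, Pb_zero] at h1
  have h2 : (cn b f n : ℝ) / Pb b n ≤ ((cn b f n : ℝ) + 1) / Pb b n :=
    div_le_div_of_nonneg_right (by linarith) (Pb_pos hb n).le
  have h3 : ((0 : ℕ) + 1 : ℝ) / 1 = 1 := by norm_num
  linarith

include hb in
/-- strict upper bound -/
lemma cn_strict {f : ℕ → ℕ} (hf : ∀ i, f i < b i) (hio : ∀ N, ∃ n, N ≤ n ∧ f n ≠ b n - 1) {x : ℝ}
    (hx : HasSum (fun n : ℕ => (f (n + 1) : ℝ) / Pb b (n + 1)) x) (n : ℕ) :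
    x * Pb b n < cn b f n + 1 := by
  obtain ⟨m, hm, hmf⟩ := hio (n + 1)
  obtain ⟨m', rfl⟩ : ∃ m', m = m' + 1 := ⟨m - 1, by omega⟩
  have h1 := (cn_bounds hb hf hx (m' + 1)).2
  have hP1 := Pb_pos hb (m' + 1)
  have hP2 := Pb_pos hb m'
  have hP := Pb_pos hb n
  have h2 : ((cn b f (m' + 1) : ℝ) + 1) / Pb b (m' + 1) < ((cn b f m' : ℝ) + 1) / Pb b m' := by
    have h2 : (0 : ℝ) < b (m' + 1) := by
      have := hb (m' + 1)
      exact_mod_cast (by omega : 0 < b (m' + 1))
    rw [Pb_succ, cn, div_lt_div_iff₀ (mul_pos hP2 h2) hP2]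
    have h3 : (f (m' + 1) : ℝ) + 1 < b (m' + 1) := by
      have e1 := hf (m' + 1)
      have e2 : f (m' + 1) + 1 < b (m' + 1) := by omega
      exact_mod_cast e2
    push_cast
    have h4 := mul_lt_mul_of_pos_left h3 hP2
    nlinarith
  have h3 := cn_anti hb hf (show n ≤ m' by omega)
  simp only at h3
  have h4 : x ≤ ((cn b f (m' + 1) : ℝ) + 1) / Pb b (m' + 1) := by
    rw [le_div_iff₀ hP1]; exact h1
  have h5 : x < ((cn b f n : ℝ) + 1) / Pb b n := lt_of_le_of_lt h4 (lt_of_lt_of_le h2 h3)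
  rwa [lt_div_iff₀ hP] at h5

include hb in
/-- uniqueness of the digits -/
lemma digits_unique {f g : ℕ → ℕ} (hf : ∀ i, f i < b i) (hg : ∀ i, g i < b i)
    (hfio : ∀ N, ∃ n, N ≤ n ∧ f n ≠ b n - 1) (hgio : ∀ N, ∃ n, N ≤ n ∧ g n ≠ b n - 1) {x : ℝ}
    (hxf : HasSum (fun n : ℕ => (f (n + 1) : ℝ) / Pb b (n + 1)) x)
    (hxg : HasSum (fun n : ℕ => (g (n + 1) : ℝ) / Pb b (n + 1)) x) :
    ∀ n, 1 ≤ n → f n = g n := by
  have h1 : ∀ n, cn b f n = cn b g n := by
    intro n
    have e1 := (cn_bounds hb hf hxf n).1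
    have e2 := cn_strict hb hf hfio hxf n
    have e3 := (cn_bounds hb hg hxg n).1
    have e4 := cn_strict hb hg hgio hxg n
    have e5 : (cn b f n : ℝ) < cn b g n + 1 := lt_of_le_of_lt e1 e4
    have e6 : (cn b g n : ℝ) < cn b f n + 1 := lt_of_le_of_lt e3 e2
    have e7 : cn b f n < cn b g n + 1 := by exact_mod_cast e5
    have e8 : cn b g n < cn b f n + 1 := by exact_mod_cast e6
    omega
  intro n hn
  obtain ⟨m, rfl⟩ : ∃ m, n = m + 1 := ⟨n - 1, by omega⟩
  have e1 := h1 (m + 1)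
  rw [cn, cn, h1 m] at e1
  omega

end

/-- tails do not matter -/
lemma tail_ratio {f g V : ℕ → ℝ} {i0 : ℕ} {L : ℝ} (h : ∀ i, i0 ≤ i → f i = g i)
    (hV : Tendsto V atTop atTop)
    (hg : Tendsto (fun n => (∑ i ∈ range n, g i) / V n) atTop (𝓝 L)) :
    Tendsto (fun n => (∑ i ∈ range n, f i) / V n) atTop (𝓝 L) := by
  set c : ℝ := ∑ i ∈ range i0, (f i - g i) with hc
  have h1 : ∀ n, i0 ≤ n → ∑ i ∈ range n, f i = ∑ i ∈ range n, g i + c := by
    intro n hn
    have e1 : ∑ i ∈ range n, (f i - g i) = c := by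
      rw [hc]
      symm
      refine Finset.sum_subset (Finset.range_mono hn) fun i _ hi => ?_
      rw [Finset.mem_range, not_lt] at hi
      rw [h i hi, sub_self]
    rw [Finset.sum_sub_distrib] at e1
    linarith
  have h2 : Tendsto (fun n => c / V n) atTop (𝓝 0) := hV.const_div_atTop c
  have h3 := hg.add h2
  rw [add_zero] at h3
  refine h3.congr' ?_
  filter_upwards [eventually_ge_atTop i0] with n hn
  rw [h1 n hn, add_div]

/-- the block `B` occurs after position `i` -/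
def occ {k : ℕ} (E : ℕ → ℕ) (B : Fin k → ℕ) (i : ℕ) : Prop := ∀ t : Fin k, E (i + 1 + t) = B t

instance {k : ℕ} (E : ℕ → ℕ) (B : Fin k → ℕ) : DecidablePred (occ E B) := fun i => by
  unfold occ; infer_instance

/-- sets defining a block -/
def TB {k : ℕ} (B : Fin k → ℕ) (i m : ℕ) : Set ℕ := {v | ∀ t : Fin k, m = i + 1 + t → v = B t}

lemma mem_win_TB {k : ℕ} (B : Fin k → ℕ) (i : ℕ) (ω : ℕ → ℕ) :
    ω ∈ win 1 k (TB B) i ↔ occ ω B i := by
  simp only [win, Set.mem_pi, Finset.coe_Ico, Set.mem_Ico, TB, Set.mem_ofPred_eq, occ]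
  constructor
  · intro h t
    exact h (i + 1 + t) ⟨by omega, by have := t.2; omega⟩ t rfl
  · rintro h m - t rfl
    exact h t

section

variable {b : ℕ → ℕ} (hb : ∀ i, 2 ≤ b i)

lemma uni_singleton {b v : ℕ} (hv : v < b) : (uni b).real {v} = (b : ℝ)⁻¹ := by
  rw [uni_real (by omega)]
  have h1 : (range b).filter (· ∈ ({v} : Set ℕ)) = {v} := by
    ext x
    simp only [Finset.mem_filter, Finset.mem_range, Set.mem_singleton_iff, Finset.mem_singleton]
    constructor
    · exact fun h => h.2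
    · rintro rfl; exact ⟨hv, rfl⟩
  rw [h1, Finset.card_singleton]
  simp

/-- probability of a block -/
lemma win_TB_real (hlim : Tendsto b atTop atTop) {k : ℕ} (B : Fin k → ℕ) :
    ∃ i0, ∀ i, i0 ≤ i → (mu b).real (win 1 k (TB B) i) =
      (∏ t ∈ range k, (b (i + 1 + t) : ℝ))⁻¹ := by
  obtain ⟨i0, hi0⟩ := eventually_atTop.mp (hlim.eventually_gt_atTop (∑ t, B t))
  refine ⟨i0, fun i hi => ?_⟩
  rw [mu, win_real, ← Finset.prod_inv_distrib, Finset.prod_Ico_eq_prod_range,
    show i + 1 + k - (i + 1) = k by omega]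
  refine Finset.prod_congr rfl fun t ht => ?_
  rw [Finset.mem_range] at ht
  have h1 : TB B i (i + 1 + t) = {B ⟨t, ht⟩} := by
    ext v
    simp only [TB, Set.mem_ofPred_eq, Set.mem_singleton_iff]
    constructor
    · intro h; exact h ⟨t, ht⟩ rfl
    · rintro rfl s hs
      congr 1
      apply Fin.ext
      simp only
      omega
  rw [h1, uni_singleton]
  have h2 : B ⟨t, ht⟩ ≤ ∑ t, B t := Finset.single_le_sum (fun _ _ => Nat.zero_le _)
    (Finset.mem_univ _)
  exact lt_of_le_of_lt h2 (hi0 _ (by omega))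

/-- the normalising sums -/
noncomputable def QQ (b : ℕ → ℕ) (k n : ℕ) : ℝ :=
  ∑ i ∈ range n, (∏ t ∈ range k, (b (i + 1 + t) : ℝ))⁻¹

open Classical in
include hb in
/-- almost every digit sequence has the right block frequencies -/
theorem ae_normal (hlim : Tendsto b atTop atTop)
    (hdiv : ∀ k, 1 ≤ k → Tendsto (QQ b k) atTop atTop) :
    ∀ᵐ ω ∂(mu b), ∀ k, 1 ≤ k → ∀ B : Fin k → ℕ,
      Tendsto (fun n => (∑ i ∈ range n, if occ ω B i then (1 : ℝ) else 0) / QQ b k n) atTop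
        (𝓝 1) := by
  rw [ae_all_iff]
  intro k
  by_cases hk : 1 ≤ k
  swap
  · exact Eventually.of_forall fun ω h => absurd h hk
  have h0 : ∀ᵐ ω ∂(mu b), ∀ B : Fin k → ℕ,
      Tendsto (fun n => (∑ i ∈ range n, if occ ω B i then (1 : ℝ) else 0) / QQ b k n) atTop
        (𝓝 1) := by
    rw [ae_all_iff]
    intro B
    obtain ⟨i0, hi0⟩ := win_TB_real hlim B
    have hM : Tendsto (fun n => (∑ i ∈ range n, (mu b).real (win 1 k (TB B) i)) / QQ b k n) atTop
        (𝓝 1) := by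
      refine tail_ratio (g := fun i => (∏ t ∈ range k, (b (i + 1 + t) : ℝ))⁻¹) hi0 (hdiv k hk) ?_
      have : ∀ᶠ n in atTop, 0 < QQ b k n := (hdiv k hk).eventually_gt_atTop 0
      refine tendsto_const_nhds.congr' ?_
      filter_upwards [this] with n hn
      exact (div_self hn.ne').symm
    have hMdiv : Tendsto (fun n => ∑ i ∈ range n, (mu b).real (win 1 k (TB B) i)) atTop atTop := by
      have h1 := Tendsto.pos_mul_atTop one_pos hM (hdiv k hk)
      refine h1.congr' ?_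
      filter_upwards [(hdiv k hk).eventually_gt_atTop 0] with n hn
      rw [div_mul_cancel₀ _ hn.ne']
    have h2 := win_slln (fun i => uni (b i)) 1 k (TB B) hMdiv
    filter_upwards [h2] with ω hω
    have h3 := hω.mul hM
    rw [one_mul] at h3
    refine h3.congr' ?_
    filter_upwards [hMdiv.eventually_gt_atTop 0, (hdiv k hk).eventually_gt_atTop 0] with n hn hn2
    have h4 : ∑ i ∈ range n, (win 1 k (TB B) i).indicator (fun _ => (1 : ℝ)) ω =
        ∑ i ∈ range n, if occ ω B i then (1 : ℝ) else 0 := by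
      refine Finset.sum_congr rfl fun i _ => ?_
      rw [Set.indicator_apply]
      simp only [mem_win_TB]
    rw [h4]
    have h5 : ∑ i ∈ range n, (mu b).real (win 1 k (TB B) i) =
      ∑ i ∈ range n, (Measure.infinitePi fun i => uni (b i)).real (win 1 k (TB B) i) := rfl
    rw [h5] at hn ⊢
    field_simp
  filter_upwards [h0] with ω hω _
  exact hω

end

end Q263.ND
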