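import Mathlib
import Pool.Agent.Q263.ND.Digits

/-! The two digit maps. -/

set_option autoImplicit false

open Finset Filter Topology MeasureTheory
open scoped ENNReal NNReal

namespace Q263.ND

section

variable {b : ℕ → ℕ} (hb : ∀ i, 2 ≤ b i)

include hb in
/-- **Full dimension from digit maps.** -/
theorem dim_of_digits (hlim : Tendsto b atTop atTop) {F : (ℕ → ℕ) → ℕ → ℕ}
    (hFlt : ∀ ω : ℕ → ℕ, (∀ i, ω i < b i) → ∀ i, F ω i < b i)
    {S : ℕ → ℕ → Finset ℕ} (hS : ∀ i v, #(S i v) ≤ 2) (hSF : ∀ ω i, ω i ∈ S i (F ω i))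
    (hFm : ∀ i, Measurable fun ω => F ω i) {Φ : (ℕ → ℕ) → Prop}
    (hΦ : ∀ᵐ ω ∂(mu b), Φ (F ω)) (hio : ∀ᵐ ω ∂(mu b), ∀ N, ∃ n, N ≤ n ∧ F ω n ≠ b n - 1) :
    1 ≤ dimH {x : ℝ | ∃ f : ℕ → ℕ, (∀ i, f i < b i) ∧ (∀ N, ∃ n, N ≤ n ∧ f n ≠ b n - 1) ∧
      HasSum (fun n : ℕ => (f (n + 1) : ℝ) / Pb b (n + 1)) (x - ⌊x⌋) ∧ Φ f} := by
  refine dim_ge_one hb hFlt hS hSF hlim hFm
    (x := fun ω => ∑' n : ℕ, (F ω (n + 1) : ℝ) / Pb b (n + 1))
    (fun ω hω => (summable_digits hb (hFlt ω hω)).hasSum) ?_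
  filter_upwards [hΦ, hio, ae_lt hb] with ω h1 h2 h3
  have hs := (summable_digits hb (hFlt ω h3)).hasSum
  refine ⟨F ω, hFlt ω h3, h2, ?_, h1⟩
  have h4 : ⌊∑' n : ℕ, (F ω (n + 1) : ℝ) / Pb b (n + 1)⌋ = 0 := by
    rw [Int.floor_eq_zero_iff]
    have e1 := (cn_bounds hb (hFlt ω h3) hs 0).1
    have e2 := cn_strict hb (hFlt ω h3) h2 hs 0
    rw [Pb_zero, mul_one, cn] at e1 e2
    constructor
    · simpa using e1
    · simpa using e2
  rw [h4, Int.cast_zero, sub_zero]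
  exact hs

/-! ### The first digit map -/

/-- compression of the large digits -/
def F1 (b : ℕ → ℕ) (ω : ℕ → ℕ) (i : ℕ) : ℕ :=
  if ω i < b i / 2 then ω i else b i / 2 + (ω i - b i / 2) / 2

/-- branches -/
def S1 (b : ℕ → ℕ) (i v : ℕ) : Finset ℕ :=
  if v < b i / 2 then {v} else {b i / 2 + 2 * (v - b i / 2), b i / 2 + 2 * (v - b i / 2) + 1}

lemma F1_lt (ω : ℕ → ℕ) (h : ∀ i, ω i < b i) (i : ℕ) : F1 b ω i < b i := by
  have := h i
  unfold F1
  split_ifs <;> omega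

lemma S1_card (i v : ℕ) : #(S1 b i v) ≤ 2 := by
  unfold S1
  split_ifs
  · simp
  · exact Finset.card_le_two

lemma S1_mem (ω : ℕ → ℕ) (i : ℕ) : ω i ∈ S1 b i (F1 b ω i) := by
  unfold F1 S1
  by_cases h : ω i < b i / 2
  · rw [if_pos h, if_pos h]; simp
  · rw [if_neg h, if_neg (by omega), Finset.mem_insert, Finset.mem_singleton]
    omega

lemma F1_meas (i : ℕ) : Measurable fun ω => F1 b ω i :=
  (measurable_of_countable (fun v : ℕ => if v < b i / 2 then v else b i / 2 + (v - b i / 2) / 2)).comp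
    (measurable_pi_apply i)

lemma F1_small (ω : ℕ → ℕ) (i v : ℕ) (hv : v < b i / 2) : F1 b ω i = v ↔ ω i = v := by
  unfold F1
  split_ifs <;> omega

lemma F1_le (ω : ℕ → ℕ) (h : ∀ i, ω i < b i) (i : ℕ) : 4 * F1 b ω i ≤ 3 * b i := by
  have := h i
  unfold F1
  split_ifs <;> omega

/-- occurrences of a block in the first digit map -/
lemma F1_occ (hlim : Tendsto b atTop atTop) {k : ℕ} (B : Fin k → ℕ) :
    ∃ i0, ∀ i, i0 ≤ i → ∀ ω, occ (F1 b ω) B i ↔ occ ω B i := by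
  obtain ⟨i0, hi0⟩ := eventually_atTop.mp (hlim.eventually_gt_atTop (2 * (∑ t, B t) + 2))
  refine ⟨i0, fun i hi ω => forall_congr' fun t => ?_⟩
  have h2 : B t ≤ ∑ t, B t := Finset.single_le_sum (fun _ _ => Nat.zero_le _)
    (Finset.mem_univ _)
  have h3 := hi0 (i + 1 + t) (by omega)
  exact F1_small ω _ _ (by omega)

include hb in
/-- normality and the first digit map -/
theorem F1_normal (hlim : Tendsto b atTop atTop)
    (hdiv : ∀ k, 1 ≤ k → Tendsto (QQ b k) atTop atTop) :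
    ∀ᵐ ω ∂(mu b), ∀ k, 1 ≤ k → ∀ B : Fin k → ℕ,
      Tendsto (fun n => (∑ i ∈ range n, if occ (F1 b ω) B i then (1 : ℝ) else 0) / QQ b k n) atTop
        (𝓝 1) := by
  filter_upwards [ae_normal hb hlim hdiv] with ω hω k hk B
  obtain ⟨i0, hi0⟩ := F1_occ hlim B
  refine tail_ratio (i0 := i0) (g := fun i => if occ ω B i then (1 : ℝ) else 0) (fun i hi => ?_)
    (hdiv k hk) (by convert hω k hk B)
  exact if_congr (hi0 i hi ω) rfl rfl

/-! ### The second digit map -/

/-- position `i` lies in a run of `l` small digits -/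
def Rn (b : ℕ → ℕ) (l : ℕ) (ω : ℕ → ℕ) (i : ℕ) : Prop :=
  ∃ s, (s ≤ i ∧ i < s + l) ∧ ∀ m, (s ≤ m ∧ m < s + l) → ω m < b m / 2

open Classical in
/-- short runs of small digits are made large -/
noncomputable def F2 (b : ℕ → ℕ) (l : ℕ) (ω : ℕ → ℕ) (i : ℕ) : ℕ :=
  if b i / 2 ≤ ω i ∨ Rn b l ω i then ω i else ω i + b i / 2

/-- branches -/
def S2 (b : ℕ → ℕ) (i v : ℕ) : Finset ℕ := {v, v - b i / 2}

variable (l : ℕ)

lemma F2_lt (ω : ℕ → ℕ) (h : ∀ i, ω i < b i) (i : ℕ) : F2 b l ω i < b i := by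
  have := h i
  unfold F2
  split_ifs with h1
  · exact this
  · rw [not_or] at h1
    omega

lemma S2_card (i v : ℕ) : #(S2 b i v) ≤ 2 := Finset.card_le_two

lemma S2_mem (ω : ℕ → ℕ) (i : ℕ) : ω i ∈ S2 b i (F2 b l ω i) := by
  unfold F2 S2
  rw [Finset.mem_insert, Finset.mem_singleton]
  split_ifs
  · exact Or.inl rfl
  · right; omega

lemma Rn_meas (i : ℕ) : Measurable fun ω => Rn b l ω i := by
  unfold Rn
  refine Measurable.exists fun s => Measurable.and measurable_const (Measurable.forall fun m => ?_)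
  refine Measurable.imp measurable_const ?_
  rw [← measurableSet_setOfPred]
  exact measurableSet_lt (measurable_pi_apply m) measurable_const

lemma F2_meas (i : ℕ) : Measurable fun ω => F2 b l ω i := by
  unfold F2
  refine Measurable.ite ?_ (measurable_pi_apply i) ?_
  · rw [measurableSet_setOfPred]
    refine Measurable.or ?_ (Rn_meas l i)
    rw [← measurableSet_setOfPred]
    exact measurableSet_le measurable_const (measurable_pi_apply i)
  · exact (measurable_of_countable (fun v : ℕ => v + b i / 2)).comp (measurable_pi_apply i)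

lemma F2_small (ω : ℕ → ℕ) (i v : ℕ) (hv : v < b i / 2) :
    F2 b l ω i = v ↔ ω i = v ∧ Rn b l ω i := by
  unfold F2
  constructor
  · intro h
    split_ifs at h with h1
    · rcases h1 with h1 | h1
      · omega
      · exact ⟨h, h1⟩
    · omega
  · rintro ⟨h1, h2⟩
    rw [if_pos (Or.inr h2), h1]

/-- occurrences of a long block in the second digit map -/
lemma F2_occ (hl : 1 ≤ l) (hlim : Tendsto b atTop atTop) {k : ℕ} (hk : l ≤ k) (B : Fin k → ℕ) :
    ∃ i0, ∀ i, i0 ≤ i → ∀ ω, occ (F2 b l ω) B i ↔ occ ω B i := by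
  obtain ⟨i0, hi0⟩ := eventually_atTop.mp (hlim.eventually_gt_atTop (2 * (∑ t, B t) + 2))
  refine ⟨i0, fun i hi ω => ?_⟩
  have h2 : ∀ t, B t < b (i + 1 + t) / 2 := by
    intro t
    have h2 : B t ≤ ∑ t, B t := Finset.single_le_sum (fun _ _ => Nat.zero_le _)
      (Finset.mem_univ _)
    have h3 := hi0 (i + 1 + t) (by omega)
    omega
  constructor
  · intro h t
    exact ((F2_small l ω _ _ (h2 t)).mp (h t)).1
  · intro h t
    refine (F2_small l ω _ _ (h2 t)).mpr ⟨h t, ?_⟩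
    have ht := t.2
    refine ⟨min (i + 1 + t) (i + 1 + k - l), ⟨by omega, by omega⟩, fun m hm => ?_⟩
    obtain ⟨s, hs⟩ : ∃ s, m = i + 1 + s := ⟨m - (i + 1), by omega⟩
    have hs2 : s < k := by omega
    have h4 := h ⟨s, hs2⟩
    have h5 := h2 ⟨s, hs2⟩
    simp only at h4 h5
    rw [hs, h4]
    exact h5

include hb in
/-- normality of high orders and the second digit map -/
theorem F2_normal (hl : 1 ≤ l) (hlim : Tendsto b atTop atTop)
    (hdiv : ∀ k, 1 ≤ k → Tendsto (QQ b k) atTop atTop) :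
    ∀ᵐ ω ∂(mu b), ∀ k, 1 ≤ k → l ≤ k → ∀ B : Fin k → ℕ,
      Tendsto (fun n => (∑ i ∈ range n, if occ (F2 b l ω) B i then (1 : ℝ) else 0) / QQ b k n)
        atTop (𝓝 1) := by
  filter_upwards [ae_normal hb hlim hdiv] with ω hω k hk hlk B
  obtain ⟨i0, hi0⟩ := F2_occ l hl hlim hlk B
  refine tail_ratio (i0 := i0) (g := fun i => if occ ω B i then (1 : ℝ) else 0) (fun i hi => ?_)
    (hdiv k hk) (by convert hω k hk B)
  exact if_congr (hi0 i hi ω) rfl rfl

/-- sets defining an isolated block of zeros -/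
def TZ (b : ℕ → ℕ) (j i m : ℕ) : Set ℕ :=
  if m = i ∨ m = i + 1 + j then {v | b m / 2 ≤ v} else {0}

include hb in
lemma uni_large (m : ℕ) : (1 : ℝ) / 2 ≤ (uni (b m)).real {v | b m / 2 ≤ v} := by
  have h2 := hb m
  rw [uni_real (by omega)]
  have h1 : (range (b m)).filter (· ∈ {v | b m / 2 ≤ v}) = Finset.Ico (b m / 2) (b m) := by
    ext x
    simp only [Finset.mem_filter, Finset.mem_range, Set.mem_ofPred_eq, Finset.mem_Ico]
    tauto
  rw [h1, Nat.card_Ico, le_div_iff₀ (by exact_mod_cast (by omega : 0 < b m))]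
  have h3 : b m ≤ 2 * (b m - b m / 2) := by omega
  have h4 : (b m : ℝ) ≤ 2 * ((b m - b m / 2 : ℕ) : ℝ) := by exact_mod_cast h3
  linarith

include hb in
/-- probability of an isolated block of zeros -/
lemma win_TZ_real (j i : ℕ) : 1 / 4 * (∏ t ∈ range j, (b (i + 1 + t) : ℝ))⁻¹ ≤
    (mu b).real (win 0 (j + 2) (TZ b j) i) := by
  rw [mu, win_real, ← Finset.prod_inv_distrib, Finset.prod_Ico_eq_prod_range,
    show i + 0 + (j + 2) - (i + 0) = j + 1 + 1 by omega, Finset.prod_range_succ,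
    Finset.prod_range_succ']
  have h0 : TZ b j i (i + 0 + 0) = {v | b i / 2 ≤ v} := by
    rw [TZ, if_pos (Or.inl (by omega))]; rfl
  have h1 : TZ b j i (i + 0 + (j + 1)) = {v | b (i + 0 + (j + 1)) / 2 ≤ v} := by
    rw [TZ, if_pos (Or.inr (by omega))]
  have h2 : ∏ x ∈ range j, (uni (b (i + 0 + (x + 1)))).real (TZ b j i (i + 0 + (x + 1))) =
      ∏ t ∈ range j, (b (i + 1 + t) : ℝ)⁻¹ := by
    refine Finset.prod_congr rfl fun t ht => ?_
    rw [Finset.mem_range] at ht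
    rw [TZ, if_neg (by omega), uni_singleton (by have := hb (i + 0 + (t + 1)); omega)]
    congr 3
    omega
  rw [h0, h1, h2]
  have e1 := uni_large hb i
  have e2 := uni_large hb (i + 0 + (j + 1))
  have e3 : 0 ≤ ∏ t ∈ range j, (b (i + 1 + t) : ℝ)⁻¹ :=
    Finset.prod_nonneg fun _ _ => inv_nonneg.mpr (Nat.cast_nonneg _)
  calc 1 / 4 * ∏ t ∈ range j, (b (i + 1 + t) : ℝ)⁻¹
      = (∏ t ∈ range j, (b (i + 1 + t) : ℝ)⁻¹) * (1 / 2) * (1 / 2) := by ring
    _ ≤ _ := by
      refine mul_le_mul (mul_le_mul_of_nonneg_left ?_ e3) e2 (by norm_num)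
        (mul_nonneg e3 measureReal_nonneg)
      exact e1

/-- an isolated short block of zeros disappears -/
lemma win_TZ_occ {j : ℕ} (hj : 1 ≤ j) (hjl : j < l) (i : ℕ) (ω : ℕ → ℕ)
    (h : ω ∈ win 0 (j + 2) (TZ b j) i) :
    occ ω (fun _ : Fin j => 0) i ∧ ¬ Rn b l ω (i + 1) := by
  have h1 : ∀ m, i ≤ m → m < i + (j + 2) → ω m ∈ TZ b j i m := by
    intro m hm1 hm2
    exact h m (by rw [Finset.coe_Ico, Set.mem_Ico]; omega)
  constructor
  · intro t
    have ht := t.2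
    have h2 := h1 (i + 1 + t) (by omega) (by omega)
    rw [TZ, if_neg (by omega)] at h2
    exact h2
  · rintro ⟨s, ⟨hs1, hs2⟩, hs3⟩
    rcases Nat.lt_or_ge s (i + 1) with hlt | hge
    · -- the run contains `i`
      have h2 := h1 i le_rfl (by omega)
      rw [TZ, if_pos (Or.inl rfl)] at h2
      have h3 := hs3 i ⟨by omega, by omega⟩
      simp only [Set.mem_ofPred_eq] at h2
      omega
    · have h2 := h1 (i + 1 + j) (by omega) (by omega)
      rw [TZ, if_pos (Or.inr rfl)] at h2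
      have h3 := hs3 (i + 1 + j) ⟨by omega, by omega⟩
      simp only [Set.mem_ofPred_eq] at h2
      omega

include hb in
/-- failure of normality of low orders -/
theorem F2_not_normal (hlim : Tendsto b atTop atTop)
    (hdiv : ∀ k, 1 ≤ k → Tendsto (QQ b k) atTop atTop) :
    ∀ᵐ ω ∂(mu b), ∀ j, 1 ≤ j → j < l →
      ¬ Tendsto (fun n => (∑ i ∈ range n, if occ (F2 b l ω) (fun _ : Fin j => 0) i then (1 : ℝ)
        else 0) / QQ b j n) atTop (𝓝 1) := by
  have h0 : ∀ᵐ ω ∂(mu b), ∀ j, 1 ≤ j → Tendsto (fun n =>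
      (∑ i ∈ range n, (win 0 (j + 2) (TZ b j) i).indicator (fun _ => (1 : ℝ)) ω) /
      ∑ i ∈ range n, (mu b).real (win 0 (j + 2) (TZ b j) i)) atTop (𝓝 1) := by
    rw [ae_all_iff]
    intro j
    by_cases hj : 1 ≤ j
    swap
    · exact Eventually.of_forall fun ω h => absurd h hj
    have hdiv' : Tendsto (fun n => ∑ i ∈ range n, (mu b).real (win 0 (j + 2) (TZ b j) i))
        atTop atTop := by
      refine tendsto_atTop_mono (f := fun n => 1 / 4 * QQ b j n) (fun n => ?_)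
        ((hdiv j hj).const_mul_atTop (by norm_num))
      rw [QQ, Finset.mul_sum]
      exact Finset.sum_le_sum fun i _ => win_TZ_real hb j i
    filter_upwards [win_slln (fun i => uni (b i)) 0 (j + 2) (TZ b j) hdiv'] with ω hω _
    exact hω
  filter_upwards [h0, ae_normal hb hlim hdiv] with ω h1 h2 j hj hjl hcon
  have h3 := h1 j hj
  have h4 := h2 j hj (fun _ : Fin j => 0)
  have e1 : ∀ᶠ n in atTop, (1 : ℝ) / 2 <
      (∑ i ∈ range n, (win 0 (j + 2) (TZ b j) i).indicator (fun _ => (1 : ℝ)) ω) /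
      ∑ i ∈ range n, (mu b).real (win 0 (j + 2) (TZ b j) i) :=
    h3.eventually (lt_mem_nhds (by norm_num))
  have e2 := h4.eventually (gt_mem_nhds (show (1 : ℝ) < 17 / 16 by norm_num))
  have e3 := hcon.eventually (lt_mem_nhds (show (15 : ℝ) / 16 < 1 by norm_num))
  obtain ⟨n, ⟨⟨e1, e2⟩, e3⟩, e4⟩ := (((e1.and e2).and e3).and
    ((hdiv j hj).eventually_gt_atTop 0)).exists
  have hM : 1 / 4 * QQ b j n ≤ ∑ i ∈ range n, (mu b).real (win 0 (j + 2) (TZ b j) i) := by
    rw [QQ, Finset.mul_sum]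
    exact Finset.sum_le_sum fun i _ => win_TZ_real hb j i
  have hMpos : 0 < ∑ i ∈ range n, (mu b).real (win 0 (j + 2) (TZ b j) i) := by
    have : 0 < 1 / 4 * QQ b j n := by positivity
    linarith
  rw [lt_div_iff₀ hMpos] at e1
  rw [div_lt_iff₀ e4] at e2
  rw [lt_div_iff₀ e4] at e3
  have hsum : (∑ i ∈ range n, if occ (F2 b l ω) (fun _ : Fin j => 0) i then (1 : ℝ) else 0) +
      (∑ i ∈ range n, (win 0 (j + 2) (TZ b j) i).indicator (fun _ => (1 : ℝ)) ω) ≤
      ∑ i ∈ range n, if occ ω (fun _ : Fin j => 0) i then (1 : ℝ) else 0 := by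
    rw [← Finset.sum_add_distrib]
    refine Finset.sum_le_sum fun i _ => ?_
    have hz : ∀ m, 0 < b m / 2 := by intro m; have := hb m; omega
    have hF : occ (F2 b l ω) (fun _ : Fin j => 0) i → occ ω (fun _ : Fin j => 0) i ∧
        Rn b l ω (i + 1) := by
      intro h
      constructor
      · intro t
        exact ((F2_small l ω _ _ (hz _)).mp (h t)).1
      · have := ((F2_small l ω _ _ (hz _)).mp (h ⟨0, hj⟩)).2
        simpa using this
    by_cases hA : ω ∈ win 0 (j + 2) (TZ b j) i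
    · obtain ⟨g1, g2⟩ := win_TZ_occ l hj hjl i ω hA
      rw [Set.indicator_of_mem hA, if_pos g1, if_neg]
      · norm_num
      · intro h; exact g2 (hF h).2
    · rw [Set.indicator_of_notMem hA, add_zero]
      by_cases h5 : occ (F2 b l ω) (fun _ : Fin j => 0) i
      · rw [if_pos h5, if_pos (hF h5).1]
      · rw [if_neg h5]
        split_ifs <;> norm_num
  have e2' : (∑ i ∈ range n, if occ ω (fun _ : Fin j => 0) i then (1 : ℝ) else 0) <
      17 / 16 * QQ b j n := by convert e2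
  linarith

end

end Q263.ND
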