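import Mathlib
import Pool.Agent.Q263.ND.Core

/-! Difference sets of normal numbers for Cantor series have full Hausdorff dimension. -/

set_option autoImplicit false

open Finset Filter Topology MeasureTheory

namespace Q263.ND.Res

/-- `(E_n)_{n ≥ 1}` (together with `E_0 = ⌊x⌋`) is the `Q`-Cantor series expansion of `x`:
`E_n ∈ {0,…,q_n - 1}`, `E_n ≠ q_n - 1` infinitely often, and
`x = ⌊x⌋ + ∑_{n ≥ 1} E_n / (q_1 ⋯ q_n)` -/
def IsExpansion (q : ℕ → ℕ) (x : ℝ) (E : ℕ → ℕ) : Prop :=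
  (∀ n, 1 ≤ n → E n < q n) ∧ (∀ N, ∃ n, N ≤ n ∧ E n ≠ q n - 1) ∧
    HasSum (fun n : ℕ => (E (n + 1) : ℝ) / ∏ i ∈ Icc 1 (n + 1), (q i : ℝ)) (x - ⌊x⌋)

/-- `Q_n^{(k)} = ∑_{j=1}^n 1/(q_j q_{j+1} ⋯ q_{j+k-1})` -/
noncomputable def Qk (q : ℕ → ℕ) (k n : ℕ) : ℝ :=
  ∑ j ∈ Icc 1 n, (∏ t ∈ range k, (q (j + t) : ℝ))⁻¹

/-- the number of positions `1 ≤ i ≤ n` at which `B` occurs -/
def count {k : ℕ} (E : ℕ → ℕ) (B : Fin k → ℕ) (n : ℕ) : ℕ :=
  #((Icc 1 n).filter fun i => ∀ t : Fin k, E (i + t) = B t)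

/-- `x ∈ 𝒩_k(Q)` -/
def NormalK (q : ℕ → ℕ) (k : ℕ) : Set ℝ :=
  {x | ∃ E, IsExpansion q x E ∧
    ∀ B : Fin k → ℕ, Tendsto (fun n => (count E B n : ℝ) / Qk q k n) atTop (𝓝 1)}

/-- `𝒩(Q) = ⋂_{k ≥ 1} 𝒩_k(Q)` -/
def Normal (q : ℕ → ℕ) : Set ℝ := ⋂ k : ℕ, ⋂ _ : 1 ≤ k, NormalK q k

/-- `T_{Q,n}(x) = (q_1 ⋯ q_n) x mod 1` -/
noncomputable def T (q : ℕ → ℕ) (n : ℕ) (x : ℝ) : ℝ := Int.fract ((∏ j ∈ Icc 1 n, (q j : ℝ)) * x)

/-- `𝒟𝒩(Q)`: `(T_{Q,n}(x))_{n ≥ 0}` is uniformly distributed mod 1 -/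
def DistNormal (q : ℕ → ℕ) : Set ℝ :=
  {x | ∀ a b : ℝ, 0 ≤ a → a < b → b ≤ 1 →
    Tendsto (fun n : ℕ => (Nat.card {m : ℕ // m < n ∧ a ≤ T q m x ∧ T q m x < b} : ℝ) / n) atTop
      (𝓝 (b - a))}

open Q263.ND

section

variable {q : ℕ → ℕ}

/-- bases from index `0` on -/
def bq (q : ℕ → ℕ) (i : ℕ) : ℕ := max 2 (q i)

lemma two_le_bq (i : ℕ) : 2 ≤ bq q i := le_max_left _ _

lemma bq_eq (hq : ∀ n, 1 ≤ n → 2 ≤ q n) {n : ℕ} (hn : 1 ≤ n) : bq q n = q n :=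
  max_eq_right (hq n hn)

lemma Pb_bq (hq : ∀ n, 1 ≤ n → 2 ≤ q n) (n : ℕ) : Pb (bq q) n = ∏ i ∈ Icc 1 n, (q i : ℝ) := by
  refine Finset.prod_congr rfl fun i hi => ?_
  rw [Finset.mem_Icc] at hi
  rw [bq_eq hq hi.1]

lemma bq_tendsto (hlim : Tendsto q atTop atTop) : Tendsto (bq q) atTop atTop :=
  tendsto_atTop_mono (fun _ => le_max_right _ _) hlim

lemma sum_shift (f : ℕ → ℝ) (n : ℕ) : ∑ j ∈ Icc 1 n, f j = ∑ i ∈ range n, f (i + 1) := by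
  rw [Finset.range_eq_Ico, Finset.sum_Ico_add' f 0 n 1]
  rfl

lemma Qk_eq (hq : ∀ n, 1 ≤ n → 2 ≤ q n) (k n : ℕ) : Qk q k n = QQ (bq q) k n := by
  rw [Qk, QQ, sum_shift]
  refine Finset.sum_congr rfl fun i _ => ?_
  congr 1
  refine Finset.prod_congr rfl fun t _ => ?_
  rw [bq_eq hq (by omega)]

lemma count_eq {k : ℕ} (E : ℕ → ℕ) (B : Fin k → ℕ) (n : ℕ) :
    (count E B n : ℝ) = ∑ i ∈ range n, if occ E B i then (1 : ℝ) else 0 := by
  rw [count, Finset.card_filter]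
  push_cast
  rw [sum_shift]
  rfl

/-- expansions with a modified digit at `0` -/
lemma expansion_iff (hq : ∀ n, 1 ≤ n → 2 ≤ q n) (x : ℝ) (E : ℕ → ℕ) (h : IsExpansion q x E) :
    ∃ f : ℕ → ℕ, (∀ n, 1 ≤ n → f n = E n) ∧ (∀ i, f i < bq q i) ∧
      (∀ N, ∃ n, N ≤ n ∧ f n ≠ bq q n - 1) ∧
      HasSum (fun n : ℕ => (f (n + 1) : ℝ) / Pb (bq q) (n + 1)) (x - ⌊x⌋) := by
  obtain ⟨h1, h2, h3⟩ := h
  refine ⟨fun n => if n = 0 then 0 else E n, ?_, ?_, ?_, ?_⟩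
  · intro n hn
    simp only
    rw [if_neg (by omega)]
  · intro i
    simp only
    split_ifs with hi
    · have := two_le_bq (q := q) i; omega
    · rw [bq_eq hq (by omega)]; exact h1 i (by omega)
  · intro N
    obtain ⟨n, hn, hn2⟩ := h2 (N + 1)
    refine ⟨n, by omega, ?_⟩
    simp only
    rw [if_neg (by omega), bq_eq hq (by omega)]
    exact hn2
  · have e : (fun n : ℕ => ((if n + 1 = 0 then 0 else E (n + 1) : ℕ) : ℝ) / Pb (bq q) (n + 1)) =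
        fun n : ℕ => (E (n + 1) : ℝ) / ∏ i ∈ Icc 1 (n + 1), (q i : ℝ) := by
      funext n
      rw [if_neg (Nat.succ_ne_zero n), Pb_bq hq]
    simp only
    rw [e]
    exact h3

/-- uniqueness of expansions -/
lemma expansion_unique (hq : ∀ n, 1 ≤ n → 2 ≤ q n) {x : ℝ} {E E' : ℕ → ℕ}
    (h : IsExpansion q x E) (h' : IsExpansion q x E') : ∀ n, 1 ≤ n → E n = E' n := by
  obtain ⟨f, f0, f1, f2, f3⟩ := expansion_iff hq x E h
  obtain ⟨g, g0, g1, g2, g3⟩ := expansion_iff hq x E' h'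
  intro n hn
  rw [← f0 n hn, ← g0 n hn]
  exact digits_unique two_le_bq f1 g1 f2 g2 f3 g3 n hn

lemma count_congr {E E' : ℕ → ℕ} (h : ∀ n, 1 ≤ n → E n = E' n) {k : ℕ} (B : Fin k → ℕ) (n : ℕ) :
    count E B n = count E' B n := by
  rw [count, count]
  congr 1
  refine Finset.filter_congr fun i hi => ?_
  rw [Finset.mem_Icc] at hi
  refine forall_congr' fun t => ?_
  rw [h _ (by omega)]

/-- sets given by digits have full dimension -/
lemma dim_sub (hq : ∀ n, 1 ≤ n → 2 ≤ q n) {G : Set ℝ} {Φ : (ℕ → ℕ) → Prop}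
    (h : 1 ≤ dimH {x : ℝ | ∃ f : ℕ → ℕ, (∀ i, f i < bq q i) ∧
      (∀ N, ∃ n, N ≤ n ∧ f n ≠ bq q n - 1) ∧
      HasSum (fun n : ℕ => (f (n + 1) : ℝ) / Pb (bq q) (n + 1)) (x - ⌊x⌋) ∧ Φ f})
    (hG : ∀ x f, IsExpansion q x f → (∀ i, f i < bq q i) → Φ f → x ∈ G) : dimH G = 1 := by
  apply le_antisymm
  · exact (dimH_mono (Set.subset_univ G)).trans Real.dimH_univ.le
  · refine h.trans (dimH_mono ?_)
    rintro x ⟨f, h1, h2, h3, h4⟩
    refine hG x f ⟨?_, ?_, ?_⟩ h1 h4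
    · intro n hn
      have := h1 n
      rwa [bq_eq hq hn] at this
    · intro N
      obtain ⟨n, hn, hn2⟩ := h2 (N + 1)
      rw [bq_eq hq (by omega)] at hn2
      exact ⟨n, by omega, hn2⟩
    · have e : (fun n : ℕ => (f (n + 1) : ℝ) / Pb (bq q) (n + 1)) =
          fun n : ℕ => (f (n + 1) : ℝ) / ∏ i ∈ Icc 1 (n + 1), (q i : ℝ) := by
        funext n
        rw [Pb_bq hq]
      rwa [e] at h3

/-- the orbit stays away from `1` -/
lemma T_lt (hq : ∀ n, 1 ≤ n → 2 ≤ q n) {x : ℝ} {E : ℕ → ℕ} (h : IsExpansion q x E) {n : ℕ}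
    (hE : 4 * E (n + 1) ≤ 3 * q (n + 1)) (hbig : 8 < q (n + 1)) : T q n x < 7 / 8 := by
  obtain ⟨f, f0, f1, f2, f3⟩ := expansion_iff hq x E h
  have e1 := (cn_bounds two_le_bq f1 f3 n).1
  have e2 := cn_strict two_le_bq f1 f2 f3 n
  have e3 := (cn_bounds two_le_bq f1 f3 (n + 1)).2
  rw [Pb_succ, cn, bq_eq hq (by omega), f0 _ (by omega)] at e3
  rw [Pb_bq hq] at e1 e2 e3
  set P : ℝ := ∏ i ∈ Icc 1 n, (q i : ℝ) with hP
  have hPint : P = ((∏ i ∈ Icc 1 n, (q i : ℤ) : ℤ) : ℝ) := by rw [hP]; push_cast; rfl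
  have h1 : T q n x = (x - ⌊x⌋) * P - cn (bq q) f n := by
    rw [T, ← hP]
    have h2 : P * x = ((x - ⌊x⌋) * P - cn (bq q) f n) +
        (((∏ i ∈ Icc 1 n, (q i : ℤ)) * ⌊x⌋ + (cn (bq q) f n : ℤ) : ℤ) : ℝ) := by
      rw [Int.cast_add, Int.cast_mul, ← hPint]
      push_cast
      ring
    rw [h2, Int.fract_add_intCast, Int.fract_eq_self]
    constructor <;> linarith
  rw [h1]
  have hq8 : (8 : ℝ) < q (n + 1) := by exact_mod_cast hbig
  have hE' : 4 * (E (n + 1) : ℝ) ≤ 3 * q (n + 1) := by exact_mod_cast hE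
  push_cast at e3
  have h3 : ((x - ⌊x⌋) * P - cn (bq q) f n) * q (n + 1) ≤ E (n + 1) + 1 := by
    have : (x - ⌊x⌋) * (P * q (n + 1)) = (x - ⌊x⌋) * P * q (n + 1) := by ring
    rw [this] at e3
    linarith
  by_contra hcon
  push Not at hcon
  have h4 : 7 / 8 * (q (n + 1) : ℝ) ≤ ((x - ⌊x⌋) * P - cn (bq q) f n) * q (n + 1) :=
    mul_le_mul_of_nonneg_right hcon (by positivity)
  linarith

lemma not_dist (hq : ∀ n, 1 ≤ n → 2 ≤ q n) (hlim : Tendsto q atTop atTop) {x : ℝ} {E : ℕ → ℕ}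
    (h : IsExpansion q x E) (hE : ∀ i, 4 * E i ≤ 3 * bq q i) : x ∉ DistNormal q := by
  intro hx
  have h1 := hx (7 / 8) 1 (by norm_num) (by norm_num) le_rfl
  obtain ⟨n0, hn0⟩ := eventually_atTop.mp (hlim.eventually_gt_atTop 8)
  have h2 : ∀ n : ℕ, Nat.card {m : ℕ // m < n ∧ 7 / 8 ≤ T q m x ∧ T q m x < 1} ≤ n0 := by
    intro n
    have h3 : ({m : ℕ | m < n ∧ 7 / 8 ≤ T q m x ∧ T q m x < 1} : Set ℕ) ⊆ ↑(Finset.range n0) := by
      rintro m ⟨-, h4, -⟩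
      rw [Finset.coe_range, Set.mem_Iio]
      by_contra hcon
      push Not at hcon
      have h5 := hE (m + 1)
      rw [bq_eq hq (by omega)] at h5
      have := T_lt hq h h5 (hn0 (m + 1) (by omega))
      linarith
    calc Nat.card {m : ℕ // m < n ∧ 7 / 8 ≤ T q m x ∧ T q m x < 1}
        ≤ Nat.card (↑(Finset.range n0) : Set ℕ) := Nat.card_mono (Finset.finite_toSet _) h3
      _ = n0 := by simp
  have h3 : Tendsto (fun n : ℕ => (n0 : ℝ) / n) atTop (𝓝 0) :=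
    tendsto_const_nhds.div_atTop tendsto_natCast_atTop_atTop
  have h4 := le_of_tendsto_of_tendsto' h1 h3 fun n =>
    div_le_div_of_nonneg_right (by exact_mod_cast h2 n) (Nat.cast_nonneg n)
  norm_num at h4

/-- the first set -/
theorem first
    (q : ℕ → ℕ) (hq : ∀ n, 1 ≤ n → 2 ≤ q n) (hlim : Tendsto q atTop atTop)
    (hdiv : ∀ k, 1 ≤ k → Tendsto (Qk q k) atTop atTop) :
    dimH (Normal q \ DistNormal q) = 1 := by
  have hb := two_le_bq (q := q)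
  have hlim' := bq_tendsto hlim
  have hdiv' : ∀ k, 1 ≤ k → Tendsto (QQ (bq q) k) atTop atTop := by
    intro k hk
    have e : Qk q k = QQ (bq q) k := funext fun n => Qk_eq hq k n
    rw [← e]
    exact hdiv k hk
  refine dim_sub hq (Φ := fun f => (∀ k, 1 ≤ k → ∀ B : Fin k → ℕ, Tendsto (fun n =>
    (∑ i ∈ range n, if occ f B i then (1 : ℝ) else 0) / QQ (bq q) k n) atTop (𝓝 1)) ∧
    ∀ i, 4 * f i ≤ 3 * bq q i)
    (dim_of_digits hb hlim' (F := F1 (bq q)) F1_lt S1_card S1_mem F1_meas ?_ ?_) ?_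
  · filter_upwards [F1_normal hb hlim' hdiv', ae_lt hb] with ω h1 h2
    exact ⟨h1, F1_le ω h2⟩
  · filter_upwards [ae_lt hb] with ω h2 N
    obtain ⟨n0, hn0⟩ := eventually_atTop.mp (hlim'.eventually_gt_atTop 4)
    refine ⟨max N n0, le_max_left _ _, ?_⟩
    have e1 := F1_le ω h2 (max N n0)
    have e2 := hn0 (max N n0) (le_max_right _ _)
    omega
  · rintro x f hx - ⟨h1, h2⟩
    refine ⟨?_, not_dist hq hlim hx h2⟩
    rw [Normal, Set.mem_iInter₂]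
    intro k hk
    refine ⟨f, hx, fun B => ?_⟩
    simp only [count_eq, Qk_eq hq]
    exact h1 k hk B

/-- the second set -/
theorem second
    (q : ℕ → ℕ) (hq : ∀ n, 1 ≤ n → 2 ≤ q n) (hlim : Tendsto q atTop atTop)
    (hdiv : ∀ k, 1 ≤ k → Tendsto (Qk q k) atTop atTop) :
    ∀ l : ℕ, 1 ≤ l →
      dimH ((⋂ j : ℕ, ⋂ _ : l ≤ j, NormalK q j) \ ⋃ j : ℕ, ⋃ _ : 1 ≤ j ∧ j < l, NormalK q j) = 1 := by
  have hb := two_le_bq (q := q)
  have hlim' := bq_tendsto hlim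
  have hdiv' : ∀ k, 1 ≤ k → Tendsto (QQ (bq q) k) atTop atTop := by
    intro k hk
    have e : Qk q k = QQ (bq q) k := funext fun n => Qk_eq hq k n
    rw [← e]
    exact hdiv k hk
  intro l hl
  refine dim_sub hq (Φ := fun f => (∀ k, 1 ≤ k → l ≤ k → ∀ B : Fin k → ℕ, Tendsto (fun n =>
    (∑ i ∈ range n, if occ f B i then (1 : ℝ) else 0) / QQ (bq q) k n) atTop (𝓝 1)) ∧
    ∀ j, 1 ≤ j → j < l → ¬ Tendsto (fun n =>
    (∑ i ∈ range n, if occ f (fun _ : Fin j => 0) i then (1 : ℝ) else 0) / QQ (bq q) j n)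
    atTop (𝓝 1))
    (dim_of_digits hb hlim' (F := F2 (bq q) l) (F2_lt l) S2_card (S2_mem l) (F2_meas l) ?_ ?_) ?_
  · filter_upwards [F2_normal hb l hl hlim' hdiv', F2_not_normal hb l hlim' hdiv'] with ω h1 h2
    exact ⟨h1, h2⟩
  · filter_upwards [F2_normal hb l hl hlim' hdiv'] with ω h1 N
    -- the block `0^l` occurs infinitely often
    by_contra hcon
    push Not at hcon
    have h2 := h1 l hl le_rfl (fun _ => 0)
    have h3 : Tendsto (fun n => (∑ i ∈ range n, if occ (F2 (bq q) l ω) (fun _ : Fin l => 0) i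
        then (1 : ℝ) else 0) / QQ (bq q) l n) atTop (𝓝 0) := by
      refine tail_ratio (i0 := N) (g := fun _ => 0) (fun i hi => ?_) (hdiv' l hl) (by simp)
      rw [if_neg]
      intro h4
      have h5 := h4 ⟨0, hl⟩
      have h6 := hcon (i + 1 + 0) (by omega)
      simp only at h5
      rw [h5] at h6
      have := hb (i + 1 + 0)
      omega
    exact zero_ne_one (tendsto_nhds_unique h3 h2)
  · rintro x f hx - ⟨h1, h2⟩
    constructor
    · rw [Set.mem_iInter₂]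
      intro k hk
      refine ⟨f, hx, fun B => ?_⟩
      simp only [count_eq, Qk_eq hq]
      exact h1 k (by omega) hk B
    · rw [Set.mem_iUnion₂]
      rintro ⟨j, ⟨hj1, hj2⟩, E, hE, hn⟩
      refine h2 j hj1 hj2 ?_
      have h3 := hn (fun _ => 0)
      refine h3.congr fun n => ?_
      rw [count_congr (expansion_unique hq hE hx), count_eq, Qk_eq hq]

end

end Q263.ND.Res
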